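import Pool.Agent.MP_e70dc0_co.H56.Convex
import Pool.Agent.MP_71ac24_nt.H14.Dilate

/-! Sets without three-term progressions have additive energy `o(n ^ 3)`. -/

set_option autoImplicit false

namespace Pool.Agent.MP_e70dc0_co.H56

open Finset Pointwise SimpleGraph SimpleGraph.TripartiteFromTriangles

theorem rr_le (P : Finset ℂ) (v : ℂ) : (rr P v : ℝ) ≤ #P := by
  refine Nat.cast_le.2 (card_le_card_of_injOn Prod.fst (fun y hy => ?_) fun y hy z hz e => ?_)
  · exact mem_coe.2 (mem_product.1 (mem_filter.1 (mem_coe.1 hy)).1).1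
  · have e1 := (mem_filter.1 (mem_coe.1 hy)).2
    have e2 := (mem_filter.1 (mem_coe.1 hz)).2
    exact Prod.ext e (by linear_combination e - e1 + e2)

theorem bsgC (P : Finset ℂ) {δ : ℝ} (hδ : 0 < δ) (hn : (0 : ℝ) < #P)
    (hE : 2 * δ * (#P : ℝ) ^ 3 ≤ en P) :
    ∃ A ⊆ P, ∃ B ⊆ P, δ * #P / 6 ≤ #A ∧ δ * #P / 6 ≤ #B ∧ δ ^ 8 * #(B - A) ≤ 3072 * #P := by
  set n : ℝ := (#P : ℝ) with hn'
  set T := {v ∈ (P ×ˢ P).image (fun x : ℂ × ℂ => x.1 - x.2) | δ * n ≤ rr P v} with hT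
  have hT1 : δ * #T ≤ n := by
    have k1 := mul_le_sum T (fun v => (rr P v : ℝ)) (δ * n) fun v hv => (mem_filter.1 hv).2
    have k2 := sum_rr P fun _ => 1
    simp only [sum_const, card_product, nsmul_eq_mul, mul_one, Nat.cast_mul] at k2
    have k3 := k1.trans (sum_le_sum_of_subset_of_nonneg (filter_subset _ _)
      fun _ _ _ => Nat.cast_nonneg _)
    rw [← k2] at k3
    exact le_of_mul_le_mul_right (by linarith) hn
  have hG : δ * n ^ 2 ≤ ∑ a ∈ P, (#{b ∈ P | a - b ∈ T} : ℝ) := by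
    have k1 := sum_split (P ×ˢ P) (fun x => (rr P (x.1 - x.2) : ℝ)) (fun x => x.1 - x.2 ∈ T)
      (t := δ * n) (u := n) (by positivity)
      (fun x hx h => (not_le.1 fun k => h (mem_filter.2 ⟨mem_image_of_mem _ hx, k⟩)).le)
      (fun x _ _ => rr_le P _)
    rw [card_prod, card_product] at k1
    simp only [en] at hE
    push_cast at k1 hE
    refine le_of_mul_le_mul_right ?_ hn
    nlinarith
  obtain ⟨B, hB, A, hA, h1, h2, h3⟩ := MP_71ac24_nt.H14.bsg_paths P P (fun a b => a - b ∈ T)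
    hn hδ le_rfl le_rfl hG
  refine ⟨A, hA, B, hB, by nlinarith [mul_pos hδ hn], h1, ?_⟩
  have k1 : ∀ c ∈ B - A, δ ^ 5 * n ^ 2 / 3072 ≤
      (#{t ∈ T ×ˢ T ×ˢ T | t.1 - t.2.1 + t.2.2 = c} : ℝ) := by
    intro c hc
    obtain ⟨a, ha, b, hb, rfl⟩ := mem_sub.1 hc
    refine (h3 a ha b hb).trans (Nat.cast_le.2 (card_le_card_of_injOn
      (fun p => (a - p.2, p.1 - p.2, p.1 - b)) ?_ ?_))
    · intro p hp
      obtain ⟨-, hp1, hp2, hp3⟩ := mem_filter.1 hp
      exact mem_filter.2 ⟨mem_product.2 ⟨hp1, mem_product.2 ⟨hp2, hp3⟩⟩, by ring⟩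
    · intro p _ q _ hpq
      simp only [Prod.mk.injEq] at hpq
      exact Prod.ext (by linear_combination hpq.2.2) (by linear_combination -hpq.1)
  have k2 := mul_le_sum _ _ _ k1
  rw [← Nat.cast_sum, sum_card_fiberwise_eq_card_filter] at k2
  have k3 := k2.trans (Nat.cast_le.2 (card_filter_le _ _))
  rw [card_product, card_product, Nat.cast_mul, Nat.cast_mul] at k3
  have k4 : (δ * #T) ^ 3 ≤ n ^ 3 := pow_le_pow_left₀ (by positivity) hT1 3
  have k5 := mul_le_mul_of_nonneg_left k3 (show 0 ≤ δ ^ 3 by positivity)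
  refine le_of_mul_le_mul_right ?_ (show 0 < n ^ 2 / 3072 by positivity)
  nlinarith

theorem roth_small (A : Finset ℂ) (hA : ThreeAPFree (A : Set ℂ)) {L : ℝ} (hL : 0 < L)
    (h : (#(A + A + A) : ℝ) ≤ L * #A) : triangleRemovalBound (1 / (9 * L ^ 2) : ℝ) * #A ≤ 1 := by
  rcases A.eq_empty_or_nonempty with rfl | hne
  · simp
  have hn : (0 : ℝ) < #A := by exact_mod_cast hne.card_pos
  set t : Finset (A × (A + A : Finset ℂ) × (A + A + A : Finset ℂ)) :=
    {z | (z.2.1 : ℂ) - z.1 ∈ A ∧ (z.2.2 : ℂ) - z.2.1 = z.2.1 - z.1} with ht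
  have mem : ∀ a b c, (a, b, c) ∈ t ↔ (b : ℂ) - a ∈ A ∧ (c : ℂ) - b = b - a := by
    intro a b c; simp [ht]
  have : ExplicitDisjoint t := ⟨fun a b c a' h1 h2 => Subtype.ext (by
      linear_combination ((mem _ _ _).1 h1).2 - ((mem _ _ _).1 h2).2),
    fun a b c b' h1 h2 => Subtype.ext (by
      linear_combination (((mem _ _ _).1 h2).2 - ((mem _ _ _).1 h1).2) / 2),
    fun a b c c' h1 h2 => Subtype.ext (by
      linear_combination ((mem _ _ _).1 h1).2 - ((mem _ _ _).1 h2).2)⟩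
  have : NoAccidental t := ⟨fun a a' b b' c c' h1 h2 h3 => by
    obtain ⟨h1, e1⟩ := (mem _ _ _).1 h1
    obtain ⟨h2, e2⟩ := (mem _ _ _).1 h2
    obtain ⟨h3, -⟩ := (mem _ _ _).1 h3
    have := hA (mem_coe.2 h3) (mem_coe.2 h2) (mem_coe.2 h1) (by linear_combination e2 - e1)
    exact Or.inr (Or.inl (Subtype.ext (by linear_combination this)))⟩
  have hc : #t = #A * #A := by
    rw [← card_product]
    refine card_nbij (fun z => ((z.1 : ℂ), (z.2.1 : ℂ) - z.1)) ?_ ?_ ?_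
    · rintro ⟨a, b, c⟩ hz
      exact mem_coe.2 (mem_product.2 ⟨a.2, ((mem _ _ _).1 hz).1⟩)
    · rintro ⟨a, b, c⟩ hz ⟨a', b', c'⟩ hz' e
      simp only [Prod.mk.injEq] at e
      have e1 := ((mem _ _ _).1 hz).2
      have e2 := ((mem _ _ _).1 hz').2
      exact Prod.ext (Subtype.ext e.1) (Prod.ext (Subtype.ext (by linear_combination e.1 + e.2))
        (Subtype.ext (by linear_combination e1 - e2 + e.1 + 2 * e.2)))
    · rintro ⟨x, y⟩ hz
      obtain ⟨hx, hy⟩ := mem_product.1 (mem_coe.1 hz)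
      refine ⟨(⟨x, hx⟩, ⟨x + y, add_mem_add hx hy⟩, ⟨x + y + y, add_mem_add (add_mem_add hx hy) hy⟩),
        mem_coe.2 ((mem _ _ _).2 ⟨by simpa using hy, by simp⟩), by simp⟩
  have h1 : (#A : ℝ) ≤ #(A + A) := Nat.cast_le.2 (card_le_card_add_right hne)
  have h2 : (#(A + A) : ℝ) ≤ #(A + A + A) := Nat.cast_le.2 (card_le_card_add_right hne)
  have hfar := farFromTriangleFree (t := t) (ε := (1 / (9 * L ^ 2) : ℝ)) (by
    simp only [Fintype.card_coe, hc]
    push_cast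
    rw [div_mul_eq_mul_div, div_le_iff₀ (by positivity), one_mul]
    have : (#A : ℝ) + #(A + A) + #(A + A + A) ≤ 3 * (L * #A) := by linarith
    have := pow_le_pow_left₀ (by positivity) this 2
    nlinarith)
  have h3 := hfar.le_card_cliqueFinset
  rw [card_triangles, hc] at h3
  simp only [Fintype.card_sum, Fintype.card_coe] at h3
  push_cast at h3
  have h4 : (0 : ℝ) < triangleRemovalBound (1 / (9 * L ^ 2) : ℝ) :=
    triangleRemovalBound_pos (by positivity)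
  have h5 : (#A : ℝ) ^ 3 ≤ ((#A : ℝ) + (#(A + A) + #(A + A + A))) ^ 3 :=
    pow_le_pow_left₀ hn.le (by linarith) 3
  have h6 := (mul_le_mul_of_nonneg_left h5 h4.le).trans h3
  refine le_of_mul_le_mul_right ?_ (mul_pos hn hn)
  nlinarith

theorem energy_small {δ : ℝ} (hδ : 0 < δ) : ∃ n0 : ℕ, ∀ P : Finset ℂ, ThreeAPFree (P : Set ℂ) →
    n0 ≤ #P → en P < δ * (#P : ℝ) ^ 3 := by
  set γ := δ / 2 with hγ
  have hγ0 : 0 < γ := by positivity
  set L := (3072 * 6 / γ ^ 9) ^ 3 * (6 / γ) with hL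
  have hL0 : 0 < L := by positivity
  have h4 : (0 : ℝ) < triangleRemovalBound (1 / (9 * L ^ 2) : ℝ) :=
    triangleRemovalBound_pos (by positivity)
  obtain ⟨n0, hn0⟩ := exists_nat_gt (6 / (γ * triangleRemovalBound (1 / (9 * L ^ 2) : ℝ)))
  refine ⟨n0, fun P hP hn => ?_⟩
  by_contra hc
  have hn1 := hn0.trans_le (Nat.cast_le.2 hn)
  have hn2 : (0 : ℝ) < #P := lt_trans (by positivity) hn1
  obtain ⟨A, hA, B, hB, h1, h2, h3⟩ := bsgC P hγ0 hn2 (by rw [hγ]; linarith [not_lt.1 hc])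
  have hB0 : (0 : ℝ) < #B := lt_of_lt_of_le (by positivity) h2
  have h5 := pluennecke_ruzsa_inequality_nsmul_sub (card_pos.1 (by exact_mod_cast hB0)) A 3
  have h6 : (#(A + A + A) : ℝ) ≤ (#(B - A) / #B) ^ 3 * #B := by
    rw [← three'_nsmul]
    have := (NNRat.cast_le (K := ℝ)).2 h5
    push_cast at this
    exact this
  have h7 : (#(B - A) : ℝ) / #B ≤ 3072 * 6 / γ ^ 9 := by
    rw [div_le_div_iff₀ hB0 (by positivity)]
    have := mul_le_mul_of_nonneg_left h3 hγ0.le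
    nlinarith
  have h8 : (#B : ℝ) ≤ 6 / γ * #A := by
    rw [div_mul_eq_mul_div, le_div_iff₀ hγ0]
    have : (#B : ℝ) ≤ #P := Nat.cast_le.2 (card_le_card hB)
    nlinarith
  have h9 := roth_small A (hP.mono (coe_subset.2 hA)) hL0 (h6.trans (by
    rw [hL, mul_assoc]; gcongr))
  rw [div_lt_iff₀ (by positivity)] at hn1
  nlinarith

end Pool.Agent.MP_e70dc0_co.H56
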