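import Pool.Agent.MP_e70dc0_co.H56.Core

/-! Distinct distances in convex position. -/

set_option autoImplicit false

namespace Pool.Agent.MP_e70dc0_co.H56

open Finset

/-- every point is strictly exposed by a linear functional -/
def Exp (P : Finset ℂ) : Prop :=
  ∀ p ∈ P, ∃ s t : ℝ, ∀ q ∈ P, q ≠ p → s * (q.re - p.re) + t * (q.im - p.im) < 0

theorem Exp.mono {P Q : Finset ℂ} (h : Exp P) (hQ : Q ⊆ P) : Exp Q := fun p hp =>
  let ⟨s, t, e⟩ := h p (hQ hp); ⟨s, t, fun q hq => e q (hQ hq)⟩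

theorem Exp.dt_ne {P : Finset ℂ} (h : Exp P) {p q r : ℂ} (hp : p ∈ P) (hq : q ∈ P) (hr : r ∈ P)
    (pq : p ≠ q) (pr : p ≠ r) (qr : q ≠ r) : dt (q - p) (r - p) ≠ 0 := by
  intro hd
  have hN : (q.re - p.re) ^ 2 + (q.im - p.im) ^ 2 ≠ 0 := by
    intro h
    apply pq
    apply Complex.ext <;> nlinarith [sq_nonneg (q.re - p.re), sq_nonneg (q.im - p.im)]
  obtain ⟨l, hl⟩ : ∃ l : ℝ, ((q.re - p.re) ^ 2 + (q.im - p.im) ^ 2) * l
      = (q.re - p.re) * (r.re - p.re) + (q.im - p.im) * (r.im - p.im) := ⟨_, mul_div_cancel₀ _ hN⟩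
  simp only [dt, Complex.sub_re, Complex.sub_im] at hd
  have e1 : r.re = p.re + l * (q.re - p.re) := by
    apply mul_left_cancel₀ hN
    linear_combination (-(q.re - p.re)) * hl - (q.im - p.im) * hd
  have e2 : r.im = p.im + l * (q.im - p.im) := by
    apply mul_left_cancel₀ hN
    linear_combination (-(q.im - p.im)) * hl + (q.re - p.re) * hd
  rcases le_total l 0 with l0 | l0
  · obtain ⟨s, t, e⟩ := h p hp
    have k1 := e q hq pq.symm
    have k2 := e r hr pr.symm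
    rw [e1, e2] at k2
    nlinarith
  rcases le_total l 1 with l1 | l1
  · obtain ⟨s, t, e⟩ := h r hr
    have k1 := e p hp pr
    have k2 := e q hq qr
    rw [e1, e2] at k1 k2
    rcases le_total 0 (s * (q.re - p.re) + t * (q.im - p.im)) with k | k <;> nlinarith
  · obtain ⟨s, t, e⟩ := h q hq
    have k1 := e p hp pq
    have k2 := e r hr qr.symm
    rw [e1, e2] at k2
    nlinarith

theorem Exp.mid {P : Finset ℂ} (h : Exp P) {v x y z : ℂ} (hv : v ≠ 0) (hx : x ∈ P) (hy : y ∈ P)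
    (hz : z ∈ P) (hx' : x + v ∈ P) (hy' : y + v ∈ P) (hz' : z + v ∈ P) (xy : x ≠ y) (xz : x ≠ z)
    (yz : y ≠ z) (h1 : dt v x ≤ dt v y) (h2 : dt v y ≤ dt v z) : False := by
  apply h.dt_ne hy hx hz xy.symm yz xz
  obtain ⟨s, t, e⟩ := h y hy
  obtain ⟨s', t', e'⟩ := h _ hy'
  have k1 := e x hx xy
  have k2 := e z hz yz.symm
  have k3 := e _ hy' (by simpa using hv)
  have l1 := e' _ hx' (by simpa using xy)
  have l2 := e' _ hz' (by simpa using yz.symm)
  have l3 := e' y hy (by simpa using hv)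
  simp only [dt, Complex.add_re, Complex.add_im, Complex.sub_re, Complex.sub_im,
    add_sub_cancel_left, add_sub_add_right_eq_sub, sub_add_cancel_left] at *
  have m1 := mul_nonneg (sub_nonneg.2 h2) (neg_nonneg.2 k1.le)
  have m2 := mul_nonneg (sub_nonneg.2 h1) (neg_nonneg.2 k2.le)
  have n1 := mul_nonneg (sub_nonneg.2 h2) (neg_nonneg.2 l1.le)
  have n2 := mul_nonneg (sub_nonneg.2 h1) (neg_nonneg.2 l2.le)
  set d := (x.re - y.re) * (z.im - y.im) - (x.im - y.im) * (z.re - y.re) with hd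
  have p1 : d * (s * v.re + t * v.im) ≤ 0 := by rw [hd]; linarith
  have p2 : d * (s' * v.re + t' * v.im) ≤ 0 := by rw [hd]; linarith
  apply le_antisymm
  · by_contra hc
    nlinarith [not_le.1 hc]
  · by_contra hc
    nlinarith [not_le.1 hc]

theorem Exp.rr_le {P : Finset ℂ} (h : Exp P) {v : ℂ} (hv : v ≠ 0) : rr P v ≤ 2 := by
  by_contra hc
  obtain ⟨a, ha, b, hb, c, hc, ab, ac, bc⟩ := two_lt_card.1 (not_le.1 hc)
  have key : ∀ a ∈ {x ∈ P ×ˢ P | x.1 - x.2 = v}, a.2 ∈ P ∧ a.2 + v ∈ P ∧ a.1 = a.2 + v := by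
    intro a ha
    obtain ⟨a1, a2⟩ := mem_filter.1 ha
    have : a.1 = a.2 + v := by rw [← a2]; ring
    exact ⟨(mem_product.1 a1).2, this ▸ (mem_product.1 a1).1, this⟩
  obtain ⟨a1, a2, a3⟩ := key a ha
  obtain ⟨b1, b2, b3⟩ := key b hb
  obtain ⟨c1, c2, c3⟩ := key c hc
  have ab' : a.2 ≠ b.2 := fun e => ab (Prod.ext (by rw [a3, b3, e]) e)
  have ac' : a.2 ≠ c.2 := fun e => ac (Prod.ext (by rw [a3, c3, e]) e)
  have bc' : b.2 ≠ c.2 := fun e => bc (Prod.ext (by rw [b3, c3, e]) e)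
  rcases le_total (dt v a.2) (dt v b.2) with i | i <;>
  rcases le_total (dt v b.2) (dt v c.2) with j | j <;>
  rcases le_total (dt v a.2) (dt v c.2) with k | k
  · exact h.mid hv a1 b1 c1 a2 b2 c2 ab' ac' bc' i j
  · exact h.mid hv a1 b1 c1 a2 b2 c2 ab' ac' bc' i j
  · exact h.mid hv a1 c1 b1 a2 c2 b2 ac' ab' bc'.symm k j
  · exact h.mid hv c1 a1 b1 c2 a2 b2 ac'.symm bc'.symm ab' k i
  · exact h.mid hv b1 a1 c1 b2 a2 c2 ab'.symm bc' ac' i k
  · exact h.mid hv b1 c1 a1 b2 c2 a2 bc' ab'.symm ac'.symm j k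
  · exact h.mid hv c1 b1 a1 c2 b2 a2 bc'.symm ac'.symm ab'.symm j i
  · exact h.mid hv c1 b1 a1 c2 b2 a2 bc'.symm ac'.symm ab'.symm j i

theorem Exp.en_le {P : Finset ℂ} (h : Exp P) : (en P : ℝ) ≤ 3 * (#P : ℝ) ^ 2 := by
  have h1 := sum_split (P ×ˢ P) (fun x => (rr P (x.1 - x.2) : ℝ)) (fun x => x.1 = x.2)
    (t := 2) (u := #P) (by norm_num)
    (fun x _ hx => by exact_mod_cast h.rr_le (sub_ne_zero.2 hx))
    (fun x _ hx => by
      refine Nat.cast_le.2 (card_le_card_of_injOn Prod.fst (fun y hy => ?_) fun y hy z hz e => ?_)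
      · exact mem_coe.2 (mem_product.1 (mem_filter.1 (mem_coe.1 hy)).1).1
      · have e1 := (mem_filter.1 (mem_coe.1 hy)).2
        have e2 := (mem_filter.1 (mem_coe.1 hz)).2
        exact Prod.ext e (by linear_combination e - e1 + e2))
  have h2 : (#{x ∈ P ×ˢ P | x.1 = x.2} : ℝ) ≤ #P := by
    refine Nat.cast_le.2 (card_le_card_of_injOn Prod.fst (fun y hy => ?_) fun y hy z hz e => ?_)
    · exact mem_coe.2 (mem_product.1 (mem_filter.1 (mem_coe.1 hy)).1).1
    · have e1 := (mem_filter.1 (mem_coe.1 hy)).2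
      have e2 := (mem_filter.1 (mem_coe.1 hz)).2
      exact Prod.ext e (by rw [← e1, ← e2, e])
  rw [card_product] at h1
  simp only [en]
  push_cast at h1 ⊢
  nlinarith [Nat.cast_nonneg (α := ℝ) #P]

theorem Exp.chain {P : Finset ℂ} (h : Exp P) : ∃ Q ⊆ P, #P ≤ 4 * #Q + 3 ∧ ∃ ε : ℝ, ε ^ 2 = 1 ∧
    ∀ p ∈ Q, ∀ q ∈ Q, p ≠ q → 0 < (q.re - p.re) * (ε * q.im - ε * p.im) := by
  choose! s t e using h
  obtain ⟨⟨y1, y2⟩, -, hy⟩ := exists_le_card_fiber_of_mul_le_card_of_maps_to (s := P)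
    (t := (univ : Finset (Bool × Bool))) (f := fun p => (decide (0 ≤ s p), decide (0 ≤ t p)))
    (n := #P / 4) (fun _ _ => mem_univ _) univ_nonempty (by simp; omega)
  refine ⟨{x ∈ P | (decide (0 ≤ s x), decide (0 ≤ t x)) = (y1, y2)}, filter_subset _ _, by omega,
    if y1 = y2 then -1 else 1, by split_ifs <;> norm_num, fun p hp q hq pq => ?_⟩
  obtain ⟨p1, p2⟩ := mem_filter.1 hp
  obtain ⟨q1, q2⟩ := mem_filter.1 hq
  have k1 := e p p1 q q1 pq.symm
  have k2 := e q q1 p p1 pq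
  simp only [Prod.mk.injEq] at p2 q2
  obtain ⟨p2, p3⟩ := p2
  obtain ⟨q2, q3⟩ := q2
  by_contra hc
  rw [not_lt] at hc
  cases y1 <;> cases y2 <;>
    simp only [decide_eq_false_iff_not, not_le, decide_eq_true_eq, if_true, Bool.false_eq_true,
      Bool.true_eq_false, if_false] at p2 p3 q2 q3 hc <;>
    rcases lt_trichotomy (q.re - p.re) 0 with x | x | x <;>
    rcases lt_trichotomy (q.im - p.im) 0 with y | y | y <;> nlinarith

theorem enum (Q : Finset ℂ) {ε : ℝ}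
    (h : ∀ p ∈ Q, ∀ q ∈ Q, p ≠ q → 0 < (q.re - p.re) * (ε * q.im - ε * p.im)) :
    ∃ p : ℕ → ℂ, (∀ i < #Q, p i ∈ Q) ∧
      ∀ i j, i < j → j < #Q → (p i).re < (p j).re ∧ ε * (p i).im < ε * (p j).im := by
  have hinj : Set.InjOn Complex.re Q := fun p hp q hq e => by
    by_contra hne
    have := h p hp q hq hne
    rw [e, sub_self, zero_mul] at this
    exact lt_irrefl _ this
  have hc : #(Q.image Complex.re) = #Q := card_image_of_injOn hinj
  have : ∀ i : Fin #Q, ∃ q ∈ Q, q.re = (Q.image Complex.re).orderEmbOfFin hc i := fun i =>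
    mem_image.1 (orderEmbOfFin_mem _ hc i)
  choose f hf e using this
  refine ⟨fun i => if hi : i < #Q then f ⟨i, hi⟩ else 0, fun i hi => by simp [hi, hf],
    fun i j ij hj => ?_⟩
  have hi := ij.trans hj
  simp only [hi, hj, dif_pos]
  have h1 : (f ⟨i, hi⟩).re < (f ⟨j, hj⟩).re := by
    rw [e, e]
    exact (OrderEmbedding.lt_iff_lt _).2 ij
  refine ⟨h1, ?_⟩
  have := h _ (hf ⟨i, hi⟩) _ (hf ⟨j, hj⟩) fun e => by rw [e] at h1; exact lt_irrefl _ h1
  exact sub_pos.1 ((pos_iff_pos_of_mul_pos this).1 (sub_pos.2 h1))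

theorem nested {p : ℕ → ℂ} {N : ℕ} {ε : ℝ} (hε : ε ^ 2 = 1)
    (h : ∀ i j, i < j → j < N → (p i).re < (p j).re ∧ ε * (p i).im < ε * (p j).im)
    {i' i j j' : ℕ} (h1 : i' ≤ i) (h2 : i ≤ j) (h3 : j < j') (h4 : j' < N) :
    ‖p i - p j‖ < ‖p i' - p j'‖ := by
  have w : ∀ i j, i ≤ j → j < N → (p i).re ≤ (p j).re ∧ ε * (p i).im ≤ ε * (p j).im := by
    intro i j ij hj
    rcases ij.eq_or_lt with rfl | ij
    · exact ⟨le_rfl, le_rfl⟩
    · exact ⟨(h i j ij hj).1.le, (h i j ij hj).2.le⟩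
  obtain ⟨a1, a2⟩ := w i' i h1 (by omega)
  obtain ⟨b1, b2⟩ := w i j h2 (by omega)
  obtain ⟨c1, c2⟩ := h j j' h3 h4
  refine lt_of_pow_lt_pow_left₀ 2 (norm_nonneg _) ?_
  have f : ∀ z w : ℂ, ‖z - w‖ ^ 2 = (w.re - z.re) ^ 2 + (ε * w.im - ε * z.im) ^ 2 := by
    intro z w
    rw [Complex.sq_norm, Complex.normSq_apply, Complex.sub_re, Complex.sub_im]
    linear_combination (-(w.im - z.im) ^ 2) * hε
  rw [f, f]
  nlinarith

/-- the set of distances -/
noncomputable def dists (P : Finset ℂ) : Finset ℝ := P.offDiag.image fun x => ‖x.1 - x.2‖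

theorem mem_dists {P : Finset ℂ} {x y : ℂ} (hx : x ∈ P) (hy : y ∈ P) (h : x ≠ y) :
    ‖x - y‖ ∈ dists P := mem_image.2 ⟨(x, y), mem_offDiag.2 ⟨hx, hy, h⟩, rfl⟩

theorem Circ.mono {P Q : Finset ℂ} {K : ℕ} (h : Circ P K) (hQ : Q ⊆ P) : Circ Q K :=
  fun c r => (card_le_card (filter_subset_filter _ hQ)).trans (h c r)

theorem Circ.one_le {P : Finset ℂ} {K : ℕ} (h : Circ P K) (hP : P.Nonempty) : 1 ≤ K := by
  obtain ⟨x, hx⟩ := hP
  refine le_trans (card_pos.2 ⟨x, ?_⟩) (h x ‖x - x‖)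
  exact mem_filter.2 ⟨hx, rfl⟩

theorem final_num {n m σ K d : ℕ} {E : ℝ} (m0 : 0 < m) (hd : m ≤ d) (hσ : 0 < σ)
    (hn : n ≤ 63 * m) (hσ2 : σ * m ≤ 5 * d) (e3 : E ≤ 3 * (m : ℝ) ^ 2)
    (main : ((m : ℝ) / (48 * (d * σ ^ 15))) ^ 14 * (m : ℝ) ^ 3 ≤ 24 * K * E) :
    n ^ 225 ≤ 63 ^ 225 * (72 * 48 ^ 14 * 5 ^ 210) * K * d ^ 224 := by
  have hm' : (0 : ℝ) < m := by exact_mod_cast m0
  have hd' : (0 : ℝ) < d := by exact_mod_cast m0.trans_le hd
  have hσ' : (0 : ℝ) < σ := by exact_mod_cast hσ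
  have e4 : (m : ℝ) ^ 15 ≤ 72 * K * (48 * (d * σ ^ 15)) ^ 14 := by
    have := main.trans (mul_le_mul_of_nonneg_left e3 (by positivity))
    rw [div_pow, div_mul_eq_mul_div, div_le_iff₀ (by positivity)] at this
    refine le_of_mul_le_mul_right ?_ (pow_pos hm' 2)
    generalize (48 * ((d : ℝ) * σ ^ 15)) ^ 14 = W at this ⊢
    calc _ = (m : ℝ) ^ 14 * m ^ 3 := by ring
      _ ≤ _ := this
      _ = _ := by ring
  have e5 : m ^ 15 ≤ 72 * K * (48 * (d * σ ^ 15)) ^ 14 := by exact_mod_cast e4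
  calc n ^ 225 ≤ (63 * m) ^ 225 := Nat.pow_le_pow_left hn _
    _ = 63 ^ 225 * (m ^ 15 * m ^ 210) := by rw [mul_pow, ← pow_add]
    _ ≤ 63 ^ 225 * (72 * K * (48 * (d * σ ^ 15)) ^ 14 * m ^ 210) :=
        Nat.mul_le_mul_left _ (Nat.mul_le_mul_right _ e5)
    _ = 63 ^ 225 * (72 * K * 48 ^ 14 * d ^ 14 * (σ * m) ^ 210) := by
        rw [mul_pow 48, mul_pow d, ← pow_mul, mul_pow σ]; simp only [mul_assoc]
    _ ≤ 63 ^ 225 * (72 * K * 48 ^ 14 * d ^ 14 * (5 * d) ^ 210) :=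
        Nat.mul_le_mul_left _ (Nat.mul_le_mul_left _ (Nat.pow_le_pow_left hσ2 _))
    _ = _ := by
        rw [mul_pow 5, show 224 = 14 + 210 from rfl, pow_add d]
        generalize 63 ^ 225 = A, 48 ^ 14 = B, 5 ^ 210 = C, d ^ 14 = E, d ^ 210 = F
        ring

theorem convex_main {P : Finset ℂ} (h : Exp P) {K : ℕ} (hK : Circ P K) (h2 : 2 ≤ #P) :
    #P ^ 225 ≤ 63 ^ 225 * (72 * 48 ^ 14 * 5 ^ 210) * K * #(dists P) ^ 224 := by
  have hK1 := hK.one_le (card_pos.1 (by omega))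
  obtain ⟨Q, hQ, hc, ε, hε, hch⟩ := h.chain
  obtain ⟨p, hp, hmon⟩ := enum Q hch
  set m := #Q / 8 with hm
  set D := dists P with hD
  rcases Nat.eq_zero_or_pos m with m0 | m0
  · obtain ⟨x, hx, y, hy, xy⟩ := one_lt_card.1 h2
    have : 1 ≤ #D := card_pos.2 ⟨_, mem_dists hx hy xy⟩
    calc #P ^ 225 ≤ 63 ^ 225 := Nat.pow_le_pow_left (by omega) _
      _ = 63 ^ 225 * 1 * 1 * 1 ^ 224 := by simp only [mul_one, one_pow]
      _ ≤ _ := by gcongr; norm_num
  have hne : ∀ i j, i < #Q → j < #Q → i ≠ j → p i ≠ p j := by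
    intro i j hi hj ij e
    rcases lt_or_gt_of_ne ij with k | k
    · have := (hmon i j k hj).1; rw [e] at this; exact lt_irrefl _ this
    · have := (hmon j i k hi).1; rw [e] at this; exact lt_irrefl _ this
  have hmD : m ≤ #D := by
    rw [← card_range m]
    refine card_le_card_of_injOn (fun j => ‖p 0 - p (j + 1)‖) (fun j hj => ?_) fun i hi j hj e => ?_
    · have := mem_range.1 (mem_coe.1 hj)
      exact mem_coe.2 (mem_dists (hQ (hp _ (by omega))) (hQ (hp _ (by omega)))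
        (hne _ _ (by omega) (by omega) (by omega)))
    · have i1 := mem_range.1 (mem_coe.1 hi)
      have j1 := mem_range.1 (mem_coe.1 hj)
      by_contra ij
      rcases lt_or_gt_of_ne ij with k | k
      · exact (nested hε hmon (i' := 0) (i := 0) (j := i + 1) (j' := j + 1) le_rfl (by omega)
          (by omega) (by omega)).ne e
      · exact (nested hε hmon (i' := 0) (i := 0) (j := j + 1) (j' := i + 1) le_rfl (by omega)
          (by omega) (by omega)).ne e.symm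
  set σ := 4 * #D / m + 1 with hσ
  have hσ1 : 4 * #D ≤ σ * m := by
    have := Nat.lt_div_mul_add (a := 4 * #D) m0
    rw [hσ, add_mul]; omega
  have hσ2 : σ * m ≤ 5 * #D := by
    have := Nat.div_mul_le_self (4 * #D) m
    rw [hσ, add_mul]; omega
  set a : ℕ → Fin 5 → ℂ := fun α i => p (5 * α + i) with ha
  set b : ℕ → Fin 3 → ℂ := fun β j => p (5 * m + 3 * β + j) with hb
  set B := (range m).image fun β => b β 0 with hB
  have hBP : B ⊆ P := fun z hz => by
    obtain ⟨β, hβ, rfl⟩ := mem_image.1 hz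
    have := mem_range.1 hβ
    exact hQ (hp _ (by simp; omega))
  have hm' : (0 : ℝ) < m := by exact_mod_cast m0
  have hD' : (m : ℝ) ≤ #D := by exact_mod_cast hmD
  have hσ' : (1 : ℝ) ≤ σ := by exact_mod_cast Nat.le_add_left _ _
  have hW : (m : ℝ) ≤ 48 * (#D * σ ^ 15) := by
    have : (1 : ℝ) ≤ σ ^ 15 := one_le_pow₀ hσ'
    nlinarith
  have hW0 : (0 : ℝ) < 48 * (#D * σ ^ 15) := hm'.trans_le hW
  have main := core m σ K m0 (Nat.succ_pos _) hK1 a b D 2 (fun x hx ij => ?_) (fun e _ => ?_)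
    (by exact_mod_cast (by omega : 2 * 2 * #D ≤ σ * m)) (fun α hα i j k ij ik jk => ?_)
    (fun β hβ => ?_) (fun i hi j hj e => ?_) (fun i hi j hj e => ?_) (hK.mono hBP)
    (η := m / (48 * (#D * σ ^ 15))) (by positivity) ((div_le_one hW0).2 hW)
    (le_of_eq (by rw [mul_right_comm, mul_div_cancel₀ _ hW0.ne']))
  · have e1 := (h.mono hBP).en_le
    have e2 : (#B : ℝ) ≤ m := by exact_mod_cast card_image_le.trans (card_range m).le
    exact final_num m0 hmD (Nat.succ_pos _) (by omega) hσ2 (e1.trans (mul_le_mul_of_nonneg_left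
      (pow_le_pow_left₀ (Nat.cast_nonneg _) e2 2) (by norm_num))) main
  · have : x.1 < m ∧ x.2 < m := by simpa using hx
    have := ij.1.2
    have := ij.2.2
    exact mem_dists (hQ (hp _ (by omega))) (hQ (hp _ (by omega)))
      (hne _ _ (by omega) (by omega) (by omega))
  · classical
    have : #{x ∈ range m ×ˢ range m | Str a b x e} ≤ #(range (2 * m)) := by
      have aux : ∀ x ∈ range m ×ˢ range m, ∀ y ∈ range m ×ˢ range m, Str a b x e → Str a b y e →
          x.1 + x.2 = y.1 + y.2 → ¬ y.1 < x.1 := by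
        rintro x hx y hy ⟨-, ij, k1⟩ ⟨⟨ij', k2⟩, -⟩ e1 e2
        have : x.1 < m ∧ x.2 < m := by simpa using hx
        have : y.1 < m ∧ y.2 < m := by simpa using hy
        have := ij.1.2
        have := ij.2.2
        have := ij'.1.2
        have := ij'.2.2
        exact absurd (k2.trans k1) (not_le.2 (nested hε hmon (by omega) (by omega) (by omega)
          (by omega)))
      refine card_le_card_of_injOn (fun x => x.1 + x.2) (fun x hx => ?_) fun x hx y hy e => ?_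
      · have : x.1 < m ∧ x.2 < m := by simpa using (mem_filter.1 (mem_coe.1 hx)).1
        simp only [coe_range, Set.mem_Iio]; omega
      · obtain ⟨x1, x2⟩ := mem_filter.1 (mem_coe.1 hx)
        obtain ⟨y1, y2⟩ := mem_filter.1 (mem_coe.1 hy)
        have k1 := aux x x1 y y1 x2 y2 e
        have k2 := aux y y1 x x1 y2 x2 e.symm
        simp only at e
        exact Prod.ext (by omega) (by omega)
    rw [card_range] at this
    exact_mod_cast this
  · have := i.2
    have := j.2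
    have := k.2
    have := Fin.val_ne_of_ne ij
    have := Fin.val_ne_of_ne ik
    have := Fin.val_ne_of_ne jk
    exact h.dt_ne (hQ (hp _ (by omega))) (hQ (hp _ (by omega))) (hQ (hp _ (by omega)))
      (hne _ _ (by omega) (by omega) (by omega)) (hne _ _ (by omega) (by omega) (by omega))
      (hne _ _ (by omega) (by omega) (by omega))
  · exact h.dt_ne (hQ (hp _ (by simp; omega))) (hQ (hp _ (by simp; omega)))
      (hQ (hp _ (by simp; omega))) (hne _ _ (by simp; omega) (by simp; omega) (by simp))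
      (hne _ _ (by simp; omega) (by simp; omega) (by simp))
      (hne _ _ (by simp; omega) (by simp; omega) (by simp))
  · have i1 := mem_range.1 (mem_coe.1 hi)
    have j1 := mem_range.1 (mem_coe.1 hj)
    by_contra ij
    exact hne _ _ (by simp; omega) (by simp; omega) (by simp; omega) e
  · have i1 := mem_range.1 (mem_coe.1 hi)
    have j1 := mem_range.1 (mem_coe.1 hj)
    by_contra ij
    exact hne _ _ (by simp; omega) (by simp; omega) (by simp; omega) e

/-- the isometry from the Euclidean plane to `ℂ` -/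
noncomputable def toC : EuclideanSpace ℝ (Fin 2) ≃ₗᵢ[ℝ] ℂ :=
  Complex.orthonormalBasisOneI.repr.symm

theorem circ_image (P : Finset (EuclideanSpace ℝ (Fin 2))) (K : ℕ)
    (h : ∀ (c : EuclideanSpace ℝ (Fin 2)) (r : ℝ), {x | x ∈ P ∧ dist x c = r}.ncard ≤ K) :
    Circ (P.image toC) K := by
  intro c r
  refine le_trans (le_of_eq ?_) (h (toC.symm c) r)
  rw [← Set.ncard_image_of_injective _ toC.injective, ← Set.ncard_coe_finset]
  congr 1
  ext z
  simp only [coe_filter, mem_image, Set.mem_ofPred_eq, Set.mem_image]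
  constructor
  · rintro ⟨⟨x, hx, rfl⟩, e⟩
    exact ⟨x, ⟨hx, by rw [← toC.dist_map, toC.apply_symm_apply, dist_eq_norm, e]⟩, rfl⟩
  · rintro ⟨x, ⟨hx, e⟩, rfl⟩
    exact ⟨⟨x, hx, rfl⟩, by rw [← e, ← toC.dist_map, toC.apply_symm_apply, dist_eq_norm]⟩

theorem dists_image (P : Finset (EuclideanSpace ℝ (Fin 2))) :
    #(dists (P.image toC)) = {d : ℝ | ∃ x ∈ P, ∃ y ∈ P, x ≠ y ∧ dist x y = d}.ncard := by
  rw [← Set.ncard_coe_finset]
  congr 1
  ext d
  simp only [dists, coe_image, Set.mem_image, mem_coe, mem_offDiag, mem_image, Set.mem_ofPred_eq]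
  constructor
  · rintro ⟨⟨_, _⟩, ⟨⟨x, hx, rfl⟩, ⟨y, hy, rfl⟩, hne⟩, rfl⟩
    exact ⟨x, hx, y, hy, fun e => hne (by rw [e]), by rw [← toC.dist_map, dist_eq_norm]⟩
  · rintro ⟨x, hx, y, hy, hne, rfl⟩
    exact ⟨(toC x, toC y), ⟨⟨x, hx, rfl⟩, ⟨y, hy, rfl⟩, fun e => hne (toC.injective e)⟩,
      by rw [← toC.dist_map, dist_eq_norm]⟩

theorem exp_image (P : Finset (EuclideanSpace ℝ (Fin 2)))
    (h : ConvexIndependent ℝ (fun x : {x // x ∈ P} => (x : EuclideanSpace ℝ (Fin 2)))) :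
    Exp (P.image toC) := by
  intro p hp
  obtain ⟨x, hx, rfl⟩ := mem_image.1 hp
  obtain ⟨f, u, h1, h2⟩ := geometric_hahn_banach_closed_point (convex_convexHull ℝ _)
    ((P.finite_toSet.subset Set.sdiff_subset).isClosed_convexHull ℝ)
    ((convexIndependent_set_iff_notMem_convexHull_sdiff (s := (P : Set _))).1 h x hx)
  have e : ∀ y, f y = f (toC.symm 1) * (toC y).re + f (toC.symm Complex.I) * (toC y).im := by
    intro y
    have : y = (toC y).re • toC.symm 1 + (toC y).im • toC.symm Complex.I := by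
      apply toC.injective
      simp only [map_add, map_smul, LinearIsometryEquiv.apply_symm_apply]
      apply Complex.ext <;> simp
    conv_lhs => rw [this]
    simp only [map_add, map_smul, smul_eq_mul]
    ring
  refine ⟨f (toC.symm 1), f (toC.symm Complex.I), fun q hq hne => ?_⟩
  obtain ⟨y, hy, rfl⟩ := mem_image.1 hq
  have := h1 y (subset_convexHull ℝ _ ⟨hy, fun e => hne (by rw [Set.mem_singleton_iff.1 e])⟩)
  rw [e y] at this
  rw [e x] at h2
  linarith

end Pool.Agent.MP_e70dc0_co.H56
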