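import Pool.Agent.MP_e70dc0_co.H56.Sym

/-! The proximity argument. -/

set_option autoImplicit false

namespace Pool.Agent.MP_e70dc0_co.H56

open Finset

theorem pop_bound {ι : Type*} {P : Finset ℂ} {K : ℕ} (hK : Circ P K) (hK1 : 1 ≤ K)
    (I : Finset ι) (g : ι → ℂ × ℂ) (hg : ∀ i ∈ I, ‖(g i).1‖ = 1) {F X η : ℝ} (hF0 : 0 ≤ F)
    (hF : ∀ h, (#{i ∈ I | g i = h} : ℝ) ≤ F) (hX : (#I : ℝ) ≤ X) (hη : 0 < η)
    (h2 : 2 ≤ η * #P) (hs : 2 * η * #P * X ≤ ∑ i ∈ I, (kk P (g i) : ℝ)) :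
    η ^ 14 * X * (#P : ℝ) ^ 2 ≤ 24 * K * F * en P := by
  have hn : 0 < (#P : ℝ) := by
    by_contra h
    have : (#P : ℝ) = 0 := le_antisymm (not_lt.1 h) (Nat.cast_nonneg _)
    rw [this] at h2; norm_num at h2
  have h1 := sum_split I (fun i => (kk P (g i) : ℝ)) (fun i => η * #P ≤ kk P (g i))
    (t := η * #P) (u := #P) (by positivity) (fun i _ h => (not_le.1 h).le)
    (fun i _ _ => kk_le _ _)
  set J := {i ∈ I | η * #P ≤ kk P (g i)} with hJ
  have h3 : η * X ≤ #J := by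
    refine le_of_mul_le_mul_right ?_ hn
    have := mul_le_mul_of_nonneg_right hX (by positivity : 0 ≤ η * #P)
    nlinarith
  have h4 : (#J : ℝ) ≤ #(J.image g) * F := by
    have : (#J : ℝ) = ∑ t ∈ J.image g, (#{i ∈ J | g i = t} : ℝ) := by
      exact_mod_cast card_eq_sum_card_fiberwise (fun a ha => mem_image_of_mem g ha)
    rw [this]
    refine sum_le_mul _ _ _ fun t _ => le_trans ?_ (hF t)
    exact Nat.cast_le.2 (card_le_card (filter_subset_filter _ (filter_subset _ _)))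
  have h5 := sym_bound hK hK1 (J.image g) hη h2 fun h hh => by
    obtain ⟨i, hi, rfl⟩ := mem_image.1 hh
    exact ⟨hg i (mem_filter.1 hi).1, (mem_filter.1 hi).2⟩
  calc η ^ 14 * X * (#P : ℝ) ^ 2 = (η * X) * (η ^ 13 * (#P : ℝ) ^ 2) := by ring
    _ ≤ (#(J.image g) * F) * (η ^ 13 * (#P : ℝ) ^ 2) :=
        mul_le_mul_of_nonneg_right (h3.trans h4) (by positivity)
    _ = F * (#(J.image g) * η ^ 13 * (#P : ℝ) ^ 2) := by ring
    _ ≤ F * (24 * K * en P) := mul_le_mul_of_nonneg_left h5 hF0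
    _ = _ := by ring

theorem sq_le_en (P : Finset ℂ) : (#P : ℝ) ^ 2 ≤ en P := by
  have : #(P ×ˢ P) • 1 ≤ en P := card_nsmul_le_sum _ _ _ fun x hx =>
    card_pos.2 ⟨x, mem_filter.2 ⟨hx, rfl⟩⟩
  rw [card_product, smul_eq_mul, mul_one] at this
  rw [sq]
  exact_mod_cast this

theorem congr_of {x x' w w' : ℂ} (hx : x ≠ 0) (h1 : ‖x'‖ = ‖x‖) (h2 : ‖w'‖ = ‖w‖)
    (h3 : ‖x' - w'‖ = ‖x - w‖) (h4 : 0 ≤ dt x' w' ↔ 0 ≤ dt x w) : w' = x' / x * w := by
  have e1 := sq_eq_of_norm h1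
  have e2 := sq_eq_of_norm h2
  have e3 := sq_eq_of_norm h3
  simp only [Complex.sub_re, Complex.sub_im] at e3
  have ip : x'.re * w'.re + x'.im * w'.im = x.re * w.re + x.im * w.im := by
    linear_combination (e1 + e2 - e3) / 2
  have d2 : dt x' w' ^ 2 = dt x w ^ 2 := by
    unfold dt
    linear_combination (w'.re ^ 2 + w'.im ^ 2) * e1 + (x.re ^ 2 + x.im ^ 2) * e2
      - (x'.re * w'.re + x'.im * w'.im + (x.re * w.re + x.im * w.im)) * ip
  have d1 : dt x' w' = dt x w := by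
    rcases sq_eq_sq_iff_eq_or_eq_neg.1 d2 with h | h
    · exact h
    · rcases le_total 0 (dt x w) with k | k
      · have := h4.2 k; linarith
      · have := h4.1 (by linarith); linarith
  have hN : x.re ^ 2 + x.im ^ 2 ≠ 0 := by
    intro h
    apply hx
    apply Complex.ext <;> simp only [Complex.zero_re, Complex.zero_im] <;>
      nlinarith [sq_nonneg x.re, sq_nonneg x.im]
  rw [div_mul_eq_mul_div, eq_div_iff hx]
  unfold dt at d1
  apply Complex.ext <;> simp only [Complex.mul_re, Complex.mul_im] <;> apply mul_left_cancel₀ hN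
  · linear_combination (-(w'.re * x.re - w'.im * x.im)) * e1 + (x'.re * x.re - x'.im * x.im) * ip
      - (x'.re * x.im + x'.im * x.re) * d1
  · linear_combination (-(w'.re * x.im + w'.im * x.re)) * e1 + (x'.re * x.im + x'.im * x.re) * ip
      + (x'.re * x.re - x'.im * x.im) * d1

/-- cross distances of a pair of clusters -/
noncomputable def pat (a : ℕ → Fin 5 → ℂ) (b : ℕ → Fin 3 → ℂ) (x : ℕ × ℕ) :
    Fin 5 × Fin 3 → ℝ := fun ij => ‖a x.1 ij.1 - b x.2 ij.2‖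

/-- the value `e` lies between two cross distances -/
def Str (a : ℕ → Fin 5 → ℂ) (b : ℕ → Fin 3 → ℂ) (x : ℕ × ℕ) (e : ℝ) : Prop :=
  (∃ ij, pat a b x ij ≤ e) ∧ ∃ ij, e ≤ pat a b x ij

/-- window of `σ` consecutive elements -/
noncomputable def win (D : Finset ℝ) (σ : ℕ) (d : ℝ) : Finset ℝ :=
  {e ∈ D | d ≤ e ∧ #{e' ∈ D | d ≤ e' ∧ e' ≤ e} ≤ σ}

theorem card_win (D : Finset ℝ) (σ : ℕ) (d : ℝ) : #(win D σ d) ≤ σ := by
  rcases (win D σ d).eq_empty_or_nonempty with h | h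
  · simp [h]
  · refine le_trans (card_le_card fun e he => ?_) (mem_filter.1 ((win D σ d).max'_mem h)).2.2
    exact mem_filter.2 ⟨(mem_filter.1 he).1, (mem_filter.1 he).2.1, le_max' _ _ he⟩

open Classical in
theorem good_classes (m σ : ℕ) (a : ℕ → Fin 5 → ℂ) (b : ℕ → Fin 3 → ℂ) (D : Finset ℝ)
    (hD : ∀ x ∈ range m ×ˢ range m, ∀ ij, pat a b x ij ∈ D)
    (ha : ∀ α < m, GP5 (a α)) (hb : ∀ β < m, dt (b β 1 - b β 0) (b β 2 - b β 0) ≠ 0) :
    #({x ∈ range m ×ˢ range m | #{e ∈ D | Str a b x e} ≤ σ}.image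
      fun x => (pat a b x, ‖a x.1 1 - a x.1 0‖)) ≤ 3 * (#D * σ ^ 15) := by
  set G := {x ∈ range m ×ˢ range m | #{e ∈ D | Str a b x e} ≤ σ} with hG
  set J := G.image fun x => (pat a b x, ‖a x.1 1 - a x.1 0‖) with hJ
  set Pt := D.biUnion fun d => Fintype.piFinset fun _ : Fin 5 × Fin 3 => win D σ d with hPt
  have h1 : #Pt ≤ #D * σ ^ 15 := by
    refine card_biUnion_le_card_mul _ _ _ fun d _ => ?_
    rw [Fintype.card_piFinset, prod_const]
    simpa using Nat.pow_le_pow_left (card_win D σ d) 15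
  refine le_trans (card_le_mul_card_image_of_maps_to (f := Prod.fst) (t := Pt) ?_ 3 ?_)
    (Nat.mul_le_mul_left _ h1)
  · intro y hy
    obtain ⟨x, hx, rfl⟩ := mem_image.1 hy
    obtain ⟨hx1, hx2⟩ := mem_filter.1 hx
    obtain ⟨i0, -, hi0⟩ := exists_min_image univ (pat a b x) univ_nonempty
    refine mem_biUnion.2 ⟨pat a b x i0, hD x hx1 _, Fintype.mem_piFinset.2 fun ij => ?_⟩
    refine mem_filter.2 ⟨hD x hx1 _, hi0 _ (mem_univ _), le_trans (card_le_card fun e he => ?_) hx2⟩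
    obtain ⟨e1, e2, e3⟩ := mem_filter.1 he
    exact mem_filter.2 ⟨e1, ⟨i0, e2⟩, ij, e3⟩
  · intro π _
    by_contra hc
    obtain ⟨f, hf⟩ := Function.Embedding.exists_of_card_le_finset (α := Fin 4)
      (s := {y ∈ J | y.1 = π}) (by rw [Fintype.card_fin]; exact not_le.1 hc)
    have h2 : ∀ r, ∃ x ∈ G, (pat a b x, ‖a x.1 1 - a x.1 0‖) = f r ∧ (f r).1 = π := by
      intro r
      obtain ⟨k1, k2⟩ := mem_filter.1 (mem_coe.1 (hf ⟨r, rfl⟩))
      obtain ⟨x, hx, e⟩ := mem_image.1 k1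
      exact ⟨x, hx, e, k2⟩
    choose x hx e1 e2 using h2
    have e3 : ∀ r, pat a b (x r) = π := fun r => (congrArg Prod.fst (e1 r)).trans (e2 r)
    have hm : ∀ r, (x r).1 < m ∧ (x r).2 < m := fun r => by
      simpa using (mem_filter.1 (hx r)).1
    obtain ⟨r, r', hr, e⟩ := rigid4 (fun r => a (x r).1) (fun r => b (x r).2)
      (fun r i j => congrFun ((e3 r).trans (e3 0).symm) (i, j)) (ha _ (hm 0).1)
      fun r => hb _ (hm r).2
    refine hr (f.injective ?_)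
    rw [← e1 r, ← e1 r', e3 r, e3 r', e]

/-- the isometry matching two clusters -/
noncomputable def gg (a : ℕ → Fin 5 → ℂ) (y : ℕ × ℕ) : ℂ × ℂ :=
  ((a y.2 1 - a y.2 0) / (a y.1 1 - a y.1 0),
    a y.2 0 - (a y.2 1 - a y.2 0) / (a y.1 1 - a y.1 0) * a y.1 0)

open Classical in
theorem core (m σ K : ℕ) (hm : 0 < m) (hσ0 : 0 < σ) (hK1 : 1 ≤ K) (a : ℕ → Fin 5 → ℂ)
    (b : ℕ → Fin 3 → ℂ) (D : Finset ℝ) (s : ℝ)
    (hD : ∀ x ∈ range m ×ˢ range m, ∀ ij, pat a b x ij ∈ D)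
    (hcr : ∀ e ∈ D, (#{x ∈ range m ×ˢ range m | Str a b x e} : ℝ) ≤ s * m)
    (hσ : 2 * s * #D ≤ σ * m)
    (ha : ∀ α < m, GP5 (a α)) (hb : ∀ β < m, dt (b β 1 - b β 0) (b β 2 - b β 0) ≠ 0)
    (ha0 : Set.InjOn (fun α => a α 0) (range m)) (hb0 : Set.InjOn (fun β => b β 0) (range m))
    (hK : Circ ((range m).image fun β => b β 0) K) {η : ℝ} (hη : 0 < η) (hη1 : η ≤ 1)
    (hηm : 48 * η * (#D * σ ^ 15) ≤ m) :
    η ^ 14 * (m : ℝ) ^ 3 ≤ 24 * K * en ((range m).image fun β => b β 0) := by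
  set B := (range m).image fun β => b β 0 with hB
  have hBc : (#B : ℝ) = m := by rw [hB, card_image_of_injOn hb0, card_range]
  have hm' : (0 : ℝ) < m := by exact_mod_cast hm
  have hK' : (1 : ℝ) ≤ K := by exact_mod_cast hK1
  by_cases h2 : η * m < 2
  · have h3 := sq_le_en B
    rw [hBc] at h3
    have h4 : η ^ 13 ≤ 1 := pow_le_one₀ hη.le hη1
    calc η ^ 14 * (m : ℝ) ^ 3 = η ^ 13 * (η * m) * (m : ℝ) ^ 2 := by ring
      _ ≤ 1 * 2 * (m : ℝ) ^ 2 := by gcongr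
      _ ≤ _ := by nlinarith
  set G := {x ∈ range m ×ˢ range m | #{e ∈ D | Str a b x e} ≤ σ} with hG
  have hG2 : (m : ℝ) ^ 2 / 2 ≤ #G := by
    have e1 : ∑ x ∈ range m ×ˢ range m, (#{e ∈ D | Str a b x e} : ℝ) ≤ #D * (s * m) := by
      rw [dc _ D fun x e => Str a b x e]
      exact sum_le_mul _ _ _ hcr
    have e2 := mul_le_sum {x ∈ range m ×ˢ range m | ¬ #{e ∈ D | Str a b x e} ≤ σ}
      (fun x => (#{e ∈ D | Str a b x e} : ℝ)) σ fun x hx =>
        Nat.cast_le.2 (not_le.1 (mem_filter.1 hx).2).le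
    have e3 := e2.trans ((sum_le_sum_of_subset_of_nonneg (filter_subset _ _)
      fun _ _ _ => Nat.cast_nonneg _).trans e1)
    have e4 := card_filter_add_card_filter_not (s := range m ×ˢ range m)
      fun x => #{e ∈ D | Str a b x e} ≤ σ
    rw [card_product, card_range] at e4
    have e5 : (#G : ℝ) + #{x ∈ range m ×ˢ range m | ¬ #{e ∈ D | Str a b x e} ≤ σ} = m * m := by
      exact_mod_cast e4
    have hσ' : (0 : ℝ) < σ := by exact_mod_cast hσ0
    have e6 : (#{x ∈ range m ×ˢ range m | ¬ #{e ∈ D | Str a b x e} ≤ σ} : ℝ) ≤ m ^ 2 / 2 := by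
      refine le_of_mul_le_mul_right ?_ hσ'
      nlinarith
    nlinarith
  set J := G.image fun x => (pat a b x, ‖a x.1 1 - a x.1 0‖) with hJ
  have hJc : (#J : ℝ) ≤ 3 * (#D * σ ^ 15) := by
    exact_mod_cast good_classes m σ a b D hD ha hb
  set inv : ℕ × ℕ → ((Fin 5 × Fin 3 → ℝ) × ℝ) × Bool := fun x =>
    ((pat a b x, ‖a x.1 1 - a x.1 0‖), decide (0 ≤ dt (a x.1 1 - a x.1 0) (b x.2 0 - a x.1 0)))
    with hinv
  have h3 := cs G (J ×ˢ univ) inv fun x hx =>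
    mem_product.2 ⟨mem_image_of_mem _ hx, mem_univ _⟩
  rw [card_product, card_univ, Fintype.card_bool] at h3
  push_cast at h3
  set N : ℝ := (#{x ∈ G ×ˢ G | inv x.1 = inv x.2} : ℝ) with hN
  have hN0 : 0 ≤ N := Nat.cast_nonneg _
  have h4 : 2 * η * m * m ^ 2 ≤ N := by
    refine le_of_mul_le_mul_right ?_ hm'
    have k1 := pow_le_pow_left₀ (by positivity) hG2 2
    have k2 : (#J : ℝ) * 2 * N ≤ 3 * (#D * σ ^ 15) * 2 * N := by gcongr
    have k3 := mul_le_mul_of_nonneg_right hηm hN0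
    have k4 := mul_le_mul_of_nonneg_left (k1.trans (h3.trans k2)) hη.le
    nlinarith
  set I := {y ∈ range m ×ˢ range m | ‖(gg a y).1‖ = 1} with hI
  have hne : ∀ α < m, a α 1 - a α 0 ≠ 0 := fun α hα h =>
    ha α hα 0 1 2 (by decide) (by decide) (by decide) (by simp [h, dt])
  have key : ∀ x ∈ G ×ˢ G, inv x.1 = inv x.2 → (x.1.1 < m ∧ x.1.2 < m) ∧
      (x.2.1 < m ∧ x.2.2 < m) ∧ ‖(gg a (x.1.1, x.2.1)).1‖ = 1 ∧
      act (gg a (x.1.1, x.2.1)) (b x.1.2 0) = b x.2.2 0 := by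
    intro x hx e
    have m1 : x.1.1 < m ∧ x.1.2 < m := by simpa using (mem_filter.1 (mem_product.1 hx).1).1
    have m2 : x.2.1 < m ∧ x.2.2 < m := by simpa using (mem_filter.1 (mem_product.1 hx).2).1
    simp only [hinv, Prod.mk.injEq, decide_eq_decide] at e
    obtain ⟨⟨e1, e2⟩, e3⟩ := e
    refine ⟨m1, m2, ?_, ?_⟩
    · simp only [gg, norm_div, ← e2]
      exact div_self (norm_ne_zero_iff.2 (hne _ m1.1))
    · have f1 := congrFun e1 (0, 0)
      have f2 := congrFun e1 (1, 0)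
      simp only [pat] at f1 f2
      have := congr_of (w := b x.1.2 0 - a x.1.1 0) (w' := b x.2.2 0 - a x.2.1 0) (hne _ m1.1)
        e2.symm (by rw [norm_sub_rev, ← f1, norm_sub_rev])
        (by simpa using f2.symm) e3.symm
      simp only [act, gg]
      linear_combination -this
  have h5 : N ≤ ∑ y ∈ I, (kk B (gg a y) : ℝ) := by
    have e : ∑ y ∈ I, (kk B (gg a y) : ℝ) = #{z ∈ I ×ˢ B | act (gg a z.1) z.2 ∈ B} := by
      rw [card_prod]; rfl
    rw [e]
    refine Nat.cast_le.2 <| card_le_card_of_injOn (fun x => ((x.1.1, x.2.1), b x.1.2 0))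
      (fun x hx => ?_) (fun x hx x' hx' e => ?_)
    · obtain ⟨m1, m2, k1, k2⟩ := key x (mem_filter.1 (mem_coe.1 hx)).1
        (mem_filter.1 (mem_coe.1 hx)).2
      refine mem_coe.2 (mem_filter.2 ⟨mem_product.2 ⟨mem_filter.2 ⟨?_, k1⟩, ?_⟩, ?_⟩)
      · simp [m1.1, m2.1]
      · exact mem_image_of_mem _ (mem_range.2 m1.2)
      · rw [k2]; exact mem_image_of_mem _ (mem_range.2 m2.2)
    · obtain ⟨m1, m2, -, k2⟩ := key x (mem_filter.1 (mem_coe.1 hx)).1
        (mem_filter.1 (mem_coe.1 hx)).2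
      obtain ⟨n1, n2, -, l2⟩ := key x' (mem_filter.1 (mem_coe.1 hx')).1
        (mem_filter.1 (mem_coe.1 hx')).2
      simp only [Prod.mk.injEq] at e
      obtain ⟨⟨e1, e2⟩, e3⟩ := e
      refine Prod.ext (Prod.ext e1 (hb0 (by simpa using m1.2) (by simpa using n1.2) e3))
        (Prod.ext e2 (hb0 (by simpa using m2.2) (by simpa using n2.2) ?_))
      simp only
      rw [← k2, ← l2, e1, e2, e3]
  have h6 := pop_bound hK hK1 I (gg a) (fun y hy => (mem_filter.1 hy).2) (F := m) (X := m ^ 2)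
    (η := η) hm'.le (fun h => by
      have : #{i ∈ I | gg a i = h} ≤ #(range m) := by
        refine card_le_card_of_injOn Prod.fst (fun y hy => ?_) (fun y hy y' hy' e => ?_)
        · exact mem_coe.2 (mem_product.1 (mem_filter.1 (mem_filter.1 (mem_coe.1 hy)).1).1).1
        · obtain ⟨y1, y2⟩ := mem_filter.1 (mem_coe.1 hy)
          obtain ⟨z1, z2⟩ := mem_filter.1 (mem_coe.1 hy')
          refine Prod.ext e (ha0 (mem_coe.2 (mem_product.1 (mem_filter.1 y1).1).2)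
            (mem_coe.2 (mem_product.1 (mem_filter.1 z1).1).2) ?_)
          have p : ∀ y, a y.2 0 = act (gg a y) (a y.1 0) := fun y => by simp only [act, gg]; ring
          simp only
          rw [p y, p y', y2, z2, e]
      rw [card_range] at this
      exact_mod_cast this)
    (by
      have : #I ≤ #(range m ×ˢ range m) := card_filter_le _ _
      rw [card_product, card_range, ← sq] at this
      exact_mod_cast this) hη (by rw [hBc]; exact not_lt.1 h2) (by rw [hBc]; exact h4.trans h5)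
  rw [hBc] at h6
  refine le_of_mul_le_mul_right ?_ hm'
  calc _ = η ^ 14 * m ^ 2 * (m : ℝ) ^ 2 := by ring
    _ ≤ _ := h6
    _ = _ := by ring

end Pool.Agent.MP_e70dc0_co.H56
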