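import Pool.Agent.MP_e70dc0_co.H56.Energy

/-! Point sets with a spanning path of bounded crossing number. -/

set_option autoImplicit false

namespace Pool.Agent.MP_e70dc0_co.H56

open Finset

/-- no three points on a line -/
def NoCol (P : Finset ℂ) : Prop :=
  ∀ p ∈ P, ∀ q ∈ P, ∀ r ∈ P, p ≠ q → p ≠ r → q ≠ r → dt (q - p) (r - p) ≠ 0

theorem NoCol.mono {P Q : Finset ℂ} (h : NoCol P) (hQ : Q ⊆ P) : NoCol Q :=
  fun p hp q hq r hr => h p (hQ hp) q (hQ hq) r (hQ hr)

theorem NoCol.ap {P : Finset ℂ} (h : NoCol P) : ThreeAPFree (P : Set ℂ) := by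
  intro a ha b hb c hc e
  by_contra ab
  have e1 : c = b + b - a := by linear_combination e
  refine h a ha b hb c hc ab (fun k => ab (by linear_combination (e + k) / 2))
    (fun k => ab (by linear_combination e + k)) ?_
  rw [e1]
  simp only [dt, Complex.sub_re, Complex.sub_im, Complex.add_re, Complex.add_im]
  ring

theorem sign_trans {x y z : ℝ} (h1 : 0 < x * y) (h2 : 0 < y * z) : 0 < x * z := by
  have h3 := mul_pos h1 h2
  have : 0 < y ^ 2 := by
    have : y ≠ 0 := fun h => by simp [h] at h1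
    positivity
  by_contra hc
  nlinarith [not_lt.1 hc]

theorem adj_of_str (f : Fin 5 × Fin 3 → ℝ) (h1 : ∃ ij, f ij ≤ 0) (h2 : ∃ ij, 0 ≤ f ij) :
    (∃ (i : Fin 5) (j : Fin 2), f (i, j.castSucc) * f (i, j.succ) ≤ 0) ∨
      ∃ i : Fin 4, f (i.castSucc, 0) * f (i.succ, 0) ≤ 0 := by
  by_contra hc
  push Not at hc
  obtain ⟨r, c⟩ := hc
  have c1 : 0 < f (0, 0) * f (1, 0) := c 0
  have c2 : 0 < f (0, 0) * f (2, 0) := sign_trans c1 (c 1)
  have c3 : 0 < f (0, 0) * f (3, 0) := sign_trans c2 (c 2)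
  have c4 : 0 < f (0, 0) * f (4, 0) := sign_trans c3 (c 3)
  have c0 : 0 < f (0, 0) * f (0, 0) := sign_trans c1 (by rwa [mul_comm])
  have d0 : ∀ i, 0 < f (0, 0) * f (i, 0) := by
    intro i; fin_cases i; exacts [c0, c1, c2, c3, c4]
  have d : ∀ ij, 0 < f (0, 0) * f ij := by
    rintro ⟨i, j⟩
    have d1 : 0 < f (0, 0) * f (i, 1) := sign_trans (d0 i) (r i 0)
    fin_cases j
    exacts [d0 i, d1, sign_trans d1 (r i 1)]
  obtain ⟨x, hx⟩ := h1
  obtain ⟨y, hy⟩ := h2
  have := sign_trans (by rw [mul_comm]; exact d x) (d y)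
  nlinarith

open Classical in
theorem cnt_le (Cr : ℕ → Prop) (M m o k w : ℕ) (hw : w ≤ k) (hM : o + k * m ≤ M + (k - w)) :
    #{β ∈ range m | ∃ j : Fin w, Cr (o + k * β + j)} ≤ #{j ∈ range M | Cr j} := by
  have : ∀ β ∈ {β ∈ range m | ∃ j : Fin w, Cr (o + k * β + j)}, ∃ j < w, Cr (o + k * β + j) :=
    fun β hβ => let ⟨j, hj⟩ := (mem_filter.1 hβ).2; ⟨j, j.2, hj⟩
  choose! j h1 h2 using this
  refine card_le_card_of_injOn (fun β => o + k * β + j β) (fun β hβ => ?_) fun β hβ γ hγ e => ?_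
  · have k1 := h1 β hβ
    have k2 : β + 1 ≤ m := mem_range.1 (mem_filter.1 (mem_coe.1 hβ)).1
    have k3 := Nat.mul_le_mul_left k k2
    rw [mul_add, mul_one] at k3
    exact mem_coe.2 (mem_filter.2 ⟨mem_range.2 (by simp only; omega), h2 β hβ⟩)
  · have k1 := h1 β hβ
    have k2 := h1 γ hγ
    simp only at e
    rcases lt_trichotomy β γ with l | l | l
    · have := Nat.mul_le_mul_left k (Nat.succ_le_of_lt l)
      rw [Nat.mul_succ] at this; omega
    · exact l
    · have := Nat.mul_le_mul_left k (Nat.succ_le_of_lt l)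
      rw [Nat.mul_succ] at this; omega

open Classical in
theorem str_le (p q : ℕ → ℂ) (m N s : ℕ) (hN : 5 * m ≤ N) (e : ℝ)
    (h : ∀ i < N, #{j ∈ range (N - 1) | (‖p i - q j‖ - e) * (‖p i - q (j + 1)‖ - e) ≤ 0} ≤ s)
    (h' : ∀ i < N, #{j ∈ range (N - 1) | (‖q i - p j‖ - e) * (‖q i - p (j + 1)‖ - e) ≤ 0} ≤ s) :
    #{x ∈ range m ×ˢ range m | Str (fun α i => p (5 * α + i)) (fun β j => q (3 * β + j)) x e}
      ≤ 6 * s * m := by
  set Cr : ℕ → ℕ → Prop := fun i j => (‖p i - q j‖ - e) * (‖p i - q (j + 1)‖ - e) ≤ 0 with hCr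
  set Cs : ℕ → ℕ → Prop := fun i j => (‖q i - p j‖ - e) * (‖q i - p (j + 1)‖ - e) ≤ 0 with hCs
  set R := (range m ×ˢ (univ : Finset (Fin 5))).biUnion fun y =>
    {β ∈ range m | ∃ j : Fin 2, Cr (5 * y.1 + y.2) (0 + 3 * β + j)}.image fun β => (y.1, β)
    with hR
  set S := (range m).biUnion fun β =>
    {α ∈ range m | ∃ j : Fin 4, Cs (3 * β) (0 + 5 * α + j)}.image fun α => (α, β) with hS
  have h1 : #R ≤ m * 5 * s := by
    refine (card_biUnion_le_card_mul _ _ s fun y hy => ?_).trans (by simp)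
    have : y.1 < m := mem_range.1 (mem_product.1 hy).1
    have := y.2.2
    exact card_image_le.trans ((cnt_le _ (N - 1) m _ 3 2 (by norm_num) (by omega)).trans
      (h _ (by omega)))
  have h2 : #S ≤ m * s := by
    refine (card_biUnion_le_card_mul _ _ s fun y hy => ?_).trans (by simp)
    have : y < m := mem_range.1 hy
    exact card_image_le.trans ((cnt_le _ (N - 1) m _ 5 4 (by norm_num) (by omega)).trans
      (h' _ (by omega)))
  refine le_trans (card_le_card (t := R ∪ S) fun x hx => ?_) ((card_union_le _ _).trans (by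
    nlinarith))
  obtain ⟨hx1, ⟨i1, k1⟩, i2, k2⟩ := mem_filter.1 hx
  obtain ⟨x1, x2⟩ := mem_product.1 hx1
  rcases adj_of_str (fun ij => pat (fun α i => p (5 * α + i)) (fun β j => q (3 * β + j))
    x ij - e) ⟨i1, sub_nonpos.2 k1⟩ ⟨i2, sub_nonneg.2 k2⟩ with ⟨i, j, k⟩ | ⟨i, k⟩
  · refine mem_union_left _ (mem_biUnion.2 ⟨(x.1, i), mem_product.2 ⟨x1, mem_univ _⟩,
      mem_image.2 ⟨x.2, mem_filter.2 ⟨x2, j, ?_⟩, rfl⟩⟩)
    simpa [hCr, pat, add_assoc] using k
  · refine mem_union_right _ (mem_biUnion.2 ⟨x.2, x2,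
      mem_image.2 ⟨x.1, mem_filter.2 ⟨x1, i, ?_⟩, rfl⟩⟩)
    simp only [hCs, norm_sub_rev (q (3 * x.2))]
    simpa [pat, add_assoc] using k

theorem path_main (s K C : ℕ) : ∃ n0 : ℕ, ∀ N, n0 ≤ N → ∀ p q : ℕ → ℂ, Set.InjOn p (range N) →
    Set.InjOn q (range N) → NoCol ((range N).image p) → NoCol ((range N).image q) →
    Circ ((range N).image q) K →
    (∀ i < N, ∀ e,
      #{j ∈ range (N - 1) | (‖p i - q j‖ - e) * (‖p i - q (j + 1)‖ - e) ≤ 0} ≤ s) →
    (∀ i < N, ∀ e,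
      #{j ∈ range (N - 1) | (‖q i - p j‖ - e) * (‖q i - p (j + 1)‖ - e) ≤ 0} ≤ s) →
    C * N < #((range N ×ˢ range N).image fun x => ‖p x.1 - q x.2‖) := by
  set σ := 12 * s * (9 * C) + 1 with hσ
  set η : ℝ := 1 / (48 * (9 * C * σ ^ 15) + 1) with hη
  have hW : (0 : ℝ) < 48 * (9 * C * σ ^ 15) + 1 := by positivity
  have hη0 : 0 < η := by positivity
  obtain ⟨n0, hn0⟩ := energy_small (δ := η ^ 14 / (24 * (K + 1))) (by positivity)
  refine ⟨5 * (n0 + 1), fun N hN p q hinj hinj' hcol hcol' hK hcr hcr' => ?_⟩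
  by_contra hc
  set m := N / 5 with hm
  set P := (range N).image p with hP
  set Q := (range N).image q with hQ
  set D := (range N ×ˢ range N).image fun x => ‖p x.1 - q x.2‖ with hD
  have m0 : 0 < m := by omega
  have hp : ∀ i < N, p i ∈ P := fun i hi => mem_image_of_mem _ (mem_range.2 hi)
  have hq : ∀ i < N, q i ∈ Q := fun i hi => mem_image_of_mem _ (mem_range.2 hi)
  have hne : ∀ i j, i < N → j < N → i ≠ j → p i ≠ p j := fun i j hi hj ij e =>
    ij (hinj (by simpa using hi) (by simpa using hj) e)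
  have hne' : ∀ i j, i < N → j < N → i ≠ j → q i ≠ q j := fun i j hi hj ij e =>
    ij (hinj' (by simpa using hi) (by simpa using hj) e)
  have hK1 := hK.one_le ⟨_, hq 0 (by omega)⟩
  have hDm : #D ≤ 9 * C * m := by
    have : C * N ≤ C * (9 * m) := Nat.mul_le_mul_left _ (by omega)
    nlinarith [not_lt.1 hc]
  have hDm' : (#D : ℝ) ≤ 9 * C * m := by exact_mod_cast hDm
  set a : ℕ → Fin 5 → ℂ := fun α i => p (5 * α + i) with ha
  set b : ℕ → Fin 3 → ℂ := fun β j => q (3 * β + j) with hb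
  set B := (range m).image fun β => b β 0 with hB
  have hBP : B ⊆ Q := fun z hz => by
    obtain ⟨β, hβ, rfl⟩ := mem_image.1 hz
    have := mem_range.1 hβ
    exact hq _ (by simp; omega)
  have hb0 : Set.InjOn (fun β => b β 0) (range m) := fun i hi j hj e => by
    have i1 := mem_range.1 (mem_coe.1 hi)
    have j1 := mem_range.1 (mem_coe.1 hj)
    by_contra ij
    exact hne' _ _ (by simp; omega) (by simp; omega) (by simp; omega) e
  have hm' : (0 : ℝ) < m := by exact_mod_cast m0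
  have main := core m σ K m0 (Nat.succ_pos _) hK1 a b D (6 * s) (fun x hx ij => ?_) (fun e _ => ?_)
    ?_ (fun α hα i j k ij ik jk => ?_) (fun β hβ => ?_) (fun i hi j hj e => ?_) hb0 (hK.mono hBP)
    hη0 ?_ ?_
  · have hBc : #B = m := by rw [hB, card_image_of_injOn hb0, card_range]
    have h1 := hn0 B (hcol'.mono hBP).ap (by omega)
    rw [hBc, div_mul_eq_mul_div, lt_div_iff₀ (by positivity)] at h1
    have : (0 : ℝ) ≤ en B := Nat.cast_nonneg _
    nlinarith
  · have : x.1 < m ∧ x.2 < m := by simpa using hx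
    have := ij.1.2
    have := ij.2.2
    exact mem_image.2 ⟨(5 * x.1 + ij.1, 3 * x.2 + ij.2), mem_product.2
      ⟨mem_range.2 (by simp only; omega), mem_range.2 (by simp only; omega)⟩, rfl⟩
  · exact_mod_cast str_le p q m N s (by omega) e (fun i hi => hcr i hi e) fun i hi => hcr' i hi e
  · have : 2 * (6 * s) * #D ≤ σ * m := by
      have := Nat.mul_le_mul_left (12 * s) hDm
      rw [hσ]; nlinarith
    exact_mod_cast this
  · have := i.2
    have := j.2
    have := k.2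
    have := Fin.val_ne_of_ne ij
    have := Fin.val_ne_of_ne ik
    have := Fin.val_ne_of_ne jk
    exact hcol _ (hp _ (by omega)) _ (hp _ (by omega)) _ (hp _ (by omega))
      (hne _ _ (by omega) (by omega) (by omega)) (hne _ _ (by omega) (by omega) (by omega))
      (hne _ _ (by omega) (by omega) (by omega))
  · exact hcol' _ (hq _ (by simp; omega)) _ (hq _ (by simp; omega)) _
      (hq _ (by simp; omega)) (hne' _ _ (by simp; omega) (by simp; omega) (by simp))
      (hne' _ _ (by simp; omega) (by simp; omega) (by simp))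
      (hne' _ _ (by simp; omega) (by simp; omega) (by simp))
  · have i1 := mem_range.1 (mem_coe.1 hi)
    have j1 := mem_range.1 (mem_coe.1 hj)
    by_contra ij
    exact hne _ _ (by simp; omega) (by simp; omega) (by simp; omega) e
  · rw [hη, div_le_one hW]
    have : (0 : ℝ) ≤ 48 * (9 * C * σ ^ 15) := by positivity
    linarith
  · have h1 : η * (48 * (9 * C * σ ^ 15) + 1) = 1 := by rw [hη]; field_simp
    have h2 : (#D : ℝ) * σ ^ 15 ≤ 9 * C * m * σ ^ 15 := by gcongr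
    have h3 := mul_le_mul_of_nonneg_left h2 (by positivity : 0 ≤ 48 * η)
    nlinarith [mul_pos hη0 hm']

theorem dt_ne_of {x y z : EuclideanSpace ℝ (Fin 2)} (h : ¬ Collinear ℝ {x, y, z}) :
    dt (toC y - toC x) (toC z - toC x) ≠ 0 := by
  intro hd
  apply h
  by_cases xy : y = x
  · subst xy; simpa using collinear_pair ℝ y z
  rw [← map_sub, ← map_sub] at hd
  set u := toC (y - x) with hu
  set v := toC (z - x) with hv
  have hu0 : u ≠ 0 := fun e => xy (sub_eq_zero.1 (toC.injective (by rw [← hu, e, map_zero])))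
  have hN : u.re ^ 2 + u.im ^ 2 ≠ 0 := by
    intro h
    apply hu0
    apply Complex.ext <;> simp only [Complex.zero_re, Complex.zero_im] <;>
      nlinarith [sq_nonneg u.re, sq_nonneg u.im]
  obtain ⟨l, hl⟩ : ∃ l : ℝ, (u.re ^ 2 + u.im ^ 2) * l = u.re * v.re + u.im * v.im :=
    ⟨_, mul_div_cancel₀ _ hN⟩
  unfold dt at hd
  have e : v = l • u := by
    apply Complex.ext <;> simp only [Complex.smul_re, Complex.smul_im, smul_eq_mul] <;>
      apply mul_left_cancel₀ hN
    · linear_combination (-u.re) * hl - u.im * hd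
    · linear_combination (-u.im) * hl + u.re * hd
  have e2 : z - x = l • (y - x) := toC.injective (by rw [map_smul, ← hu, ← hv, e])
  refine (collinear_iff_of_mem (p₀ := x) (by simp)).2 ⟨y - x, ?_⟩
  intro w hw
  simp only [Set.mem_insert_iff, Set.mem_singleton_iff] at hw
  rcases hw with rfl | rfl | rfl
  · exact ⟨0, by simp⟩
  · exact ⟨1, by simp⟩
  · exact ⟨l, by rw [← e2]; simp⟩

theorem ncard_eq (n : ℕ) (q : ℕ → Prop) [DecidablePred q] :
    {i | i < n ∧ q i}.ncard = #{i ∈ range n | q i} := by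
  rw [← Set.ncard_coe_finset]
  congr 1
  ext i
  simp

theorem toC_dist (x y : EuclideanSpace ℝ (Fin 2)) : ‖toC x - toC y‖ = dist x y := by
  rw [← toC.dist_map, dist_eq_norm]

theorem inj_of_nocol {n : ℕ} (hn : 3 ≤ n) {p : ℕ → EuclideanSpace ℝ (Fin 2)}
    (hcol : ∀ i < n, ∀ j < n, ∀ k < n, i ≠ j → i ≠ k → j ≠ k → ¬ Collinear ℝ {p i, p j, p k}) :
    Set.InjOn (fun i => toC (p i)) (range n) ∧ NoCol ((range n).image fun i => toC (p i)) := by
  constructor
  · intro i hi j hj e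
    have i1 := mem_range.1 (mem_coe.1 hi)
    have j1 := mem_range.1 (mem_coe.1 hj)
    by_contra ij
    obtain ⟨k, k1, k2, k3⟩ : ∃ k < n, i ≠ k ∧ j ≠ k := by
      by_cases a : i ≠ 0 ∧ j ≠ 0
      · exact ⟨0, by omega, a⟩
      by_cases b : i ≠ 1 ∧ j ≠ 1
      · exact ⟨1, by omega, b⟩
      exact ⟨2, by omega, by omega, by omega⟩
    apply hcol i i1 j j1 k k1 ij k2 k3
    rw [toC.injective e]
    simpa using collinear_pair ℝ (p j) (p k)
  · intro x hx y hy z hz xy xz yz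
    obtain ⟨i, hi, rfl⟩ := mem_image.1 hx
    obtain ⟨j, hj, rfl⟩ := mem_image.1 hy
    obtain ⟨k, hk, rfl⟩ := mem_image.1 hz
    exact dt_ne_of (hcol i (mem_range.1 hi) j (mem_range.1 hj) k (mem_range.1 hk)
      (fun e => xy (by rw [e])) (fun e => xz (by rw [e])) fun e => yz (by rw [e]))

theorem circ_idx {n K : ℕ} {p : ℕ → EuclideanSpace ℝ (Fin 2)}
    (hK : ∀ (c : EuclideanSpace ℝ (Fin 2)) (r : ℝ), {i | i < n ∧ dist (p i) c = r}.ncard ≤ K)
    (c : ℂ) (r : ℝ) : #{i ∈ range n | ‖toC (p i) - c‖ = r} ≤ K := by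
  have := hK (toC.symm c) r
  rw [ncard_eq] at this
  simpa only [← toC_dist, toC.apply_symm_apply] using this

theorem cross_le {n K s : ℕ} {q : ℕ → EuclideanSpace ℝ (Fin 2)}
    (hK : ∀ (c : EuclideanSpace ℝ (Fin 2)) (r : ℝ), {i | i < n ∧ dist (q i) c = r}.ncard ≤ K)
    (x : EuclideanSpace ℝ (Fin 2)) (e : ℝ)
    (hcr : {j | j + 1 < n ∧ (dist x (q j) - e) * (dist x (q (j + 1)) - e) < 0}.ncard ≤ s) :
    #{j ∈ range (n - 1) | (‖toC x - toC (q j)‖ - e) * (‖toC x - toC (q (j + 1))‖ - e) ≤ 0}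
      ≤ s + 2 * K := by
  have h1 : #{j ∈ range (n - 1) | (‖toC x - toC (q j)‖ - e) *
      (‖toC x - toC (q (j + 1))‖ - e) < 0} ≤ s := by
    refine le_trans (le_of_eq ?_) hcr
    rw [← ncard_eq]
    congr 1
    ext j
    simp only [toC_dist, Set.mem_ofPred_eq, lt_tsub_iff_right]
  have h2 : #{j ∈ range (n - 1) | ‖toC (q j) - toC x‖ = e} ≤ K :=
    (card_le_card (filter_subset_filter _ (range_subset_range.2 (Nat.sub_le _ _)))).trans
      (circ_idx hK _ _)
  have h3 : #{j ∈ range (n - 1) | ‖toC (q (j + 1)) - toC x‖ = e} ≤ K := by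
    refine le_trans (card_le_card_of_injOn (fun j => j + 1) (fun j hj => ?_)
      fun a _ b _ e => Nat.succ_injective e) (circ_idx hK (toC x) e)
    obtain ⟨j1, j2⟩ := mem_filter.1 (mem_coe.1 hj)
    exact mem_coe.2 (mem_filter.2 ⟨mem_range.2 (lt_tsub_iff_right.1 (mem_range.1 j1)), j2⟩)
  refine le_trans (card_le_card fun j hj => ?_) (((card_union_le _ _).trans (add_le_add h1
    ((card_union_le _ _).trans (add_le_add h2 h3)))).trans (by omega))
  obtain ⟨j1, j2⟩ := mem_filter.1 hj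
  simp only [mem_union, mem_filter, j1, true_and]
  rcases j2.lt_or_eq with k | k
  · exact Or.inl k
  · rcases mul_eq_zero.1 k with k | k
    · exact Or.inr (Or.inl (by rw [norm_sub_rev]; exact sub_eq_zero.1 k))
    · exact Or.inr (Or.inr (by rw [norm_sub_rev]; exact sub_eq_zero.1 k))

/-- no three of the first `n` points are collinear and at most `K` lie on a circle -/
def GenPos (n K : ℕ) (p : ℕ → EuclideanSpace ℝ (Fin 2)) : Prop :=
  (∀ i < n, ∀ j < n, ∀ k < n, i ≠ j → i ≠ k → j ≠ k → ¬ Collinear ℝ {p i, p j, p k}) ∧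
    ∀ (c : EuclideanSpace ℝ (Fin 2)) (r : ℝ), {i | i < n ∧ dist (p i) c = r}.ncard ≤ K

/-- every circle centred at one of the `p i` separates at most `s` consecutive pairs of the `q j` -/
def CrossLe (n s : ℕ) (p q : ℕ → EuclideanSpace ℝ (Fin 2)) : Prop :=
  ∀ i < n, ∀ r : ℝ,
    {j | j + 1 < n ∧ (dist (p i) (q j) - r) * (dist (p i) (q (j + 1)) - r) < 0}.ncard ≤ s

theorem path_euclid (s K C : ℕ) : ∃ n0 : ℕ, ∀ n, n0 ≤ n → ∀ p q : ℕ → EuclideanSpace ℝ (Fin 2),
    GenPos n K p → GenPos n K q → CrossLe n s p q → CrossLe n s q p →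
    C * n < {d : ℝ | ∃ i < n, ∃ j < n, dist (p i) (q j) = d}.ncard := by
  obtain ⟨n0, h⟩ := path_main (s + 2 * K) K C
  refine ⟨n0 + 3, fun n hn p q hp hq hpq hqp => ?_⟩
  obtain ⟨p1, p2⟩ := inj_of_nocol (by omega) hp.1
  obtain ⟨q1, q2⟩ := inj_of_nocol (by omega) hq.1
  have := h n (by omega) (fun i => toC (p i)) (fun i => toC (q i)) p1 q1 p2 q2 (fun c r => by
    rw [filter_image]
    exact card_image_le.trans (circ_idx hq.2 c r))
    (fun i hi e => cross_le hq.2 _ e (hpq i hi e)) fun i hi e => cross_le hp.2 _ e (hqp i hi e)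
  convert this using 1
  rw [← Set.ncard_coe_finset]
  congr 1
  ext d
  simp only [coe_image, Set.mem_image, mem_coe, Set.mem_ofPred_eq, mem_range, mem_product, toC_dist]
  constructor
  · rintro ⟨i, hi, j, hj, rfl⟩
    exact ⟨(i, j), ⟨hi, hj⟩, rfl⟩
  · rintro ⟨⟨i, j⟩, ⟨hi, hj⟩, rfl⟩
    exact ⟨i, hi, j, hj, rfl⟩

end Pool.Agent.MP_e70dc0_co.H56
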