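import Mathlib

/-! Rigidity of the bipartite framework `K_{5,3}` in the plane. -/

set_option autoImplicit false

namespace Pool.Agent.MP_e70dc0_co.H56

/-- determinant of two plane vectors -/
def dt (u v : ℂ) : ℝ := u.re * v.im - u.im * v.re

/-- quadratic part of a conic through the origin -/
def cQ (c : Fin 5 → ℝ) (x : ℂ) : ℝ :=
  c 0 * x.re ^ 2 + 2 * c 1 * x.re * x.im + c 2 * x.im ^ 2

/-- linear part of a conic through the origin -/
def cL (c : Fin 5 → ℝ) (x : ℂ) : ℝ := c 3 * x.re + c 4 * x.im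

theorem zero_of_dt {a b : ℝ} {u v : ℂ} (h : dt u v ≠ 0) (hu : a * u.re + b * u.im = 0)
    (hv : a * v.re + b * v.im = 0) : a = 0 ∧ b = 0 := by
  unfold dt at h
  constructor
  · have : a * (u.re * v.im - u.im * v.re) = 0 := by linear_combination v.im * hu - u.im * hv
    exact (mul_eq_zero.1 this).resolve_right h
  · have : b * (u.re * v.im - u.im * v.re) = 0 := by linear_combination u.re * hv - v.re * hu
    exact (mul_eq_zero.1 this).resolve_right h

theorem conicZ (c : Fin 5 → ℝ) (v p q r : ℂ) (hQ : cQ c v = 0) (hL : cL c v = 0)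
    (hp : cQ c p = 2 * cL c p) (hq : cQ c q = 2 * cL c q) (hr : cQ c r = 2 * cL c r)
    (dp : dt v p ≠ 0) (dq : dt v q ≠ 0) (dr : dt v r ≠ 0) (d : dt (q - p) (r - p) ≠ 0) :
    c = 0 := by
  have hv : v.re ^ 2 + v.im ^ 2 ≠ 0 := by
    intro h
    have h1 : v.re = 0 := by nlinarith [sq_nonneg v.re, sq_nonneg v.im]
    have h2 : v.im = 0 := by nlinarith [sq_nonneg v.re, sq_nonneg v.im]
    exact dp (by simp [dt, h1, h2])
  set B := -c 0 * v.re * v.im + c 1 * (v.re ^ 2 - v.im ^ 2) + c 2 * v.re * v.im with hB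
  set Q := c 0 * v.im ^ 2 - 2 * c 1 * v.re * v.im + c 2 * v.re ^ 2 with hQ'
  set l := -c 3 * v.im + c 4 * v.re with hl
  have key : ∀ x : ℂ, cQ c x = 2 * cL c x → dt v x ≠ 0 →
      (2 * B * v.re - Q * v.im) * x.re + (2 * B * v.im + Q * v.re) * x.im
        = 2 * (v.re ^ 2 + v.im ^ 2) * l := by
    intro x hx dx
    apply mul_left_cancel₀ dx
    unfold cQ cL dt at *
    linear_combination (v.re ^ 2 + v.im ^ 2) ^ 2 * hx - (x.re * v.re + x.im * v.im) ^ 2 * hQ
      + 2 * (v.re ^ 2 + v.im ^ 2) * (x.re * v.re + x.im * v.im) * hL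
  have kp := key p hp dp
  have kq := key q hq dq
  have kr := key r hr dr
  obtain ⟨h1, h2⟩ := zero_of_dt (a := 2 * B * v.re - Q * v.im) (b := 2 * B * v.im + Q * v.re) d
    (by simp only [Complex.sub_re, Complex.sub_im]; linear_combination kq - kp)
    (by simp only [Complex.sub_re, Complex.sub_im]; linear_combination kr - kp)
  have hB0 : B = 0 := by
    have : B * (v.re ^ 2 + v.im ^ 2) = 0 := by linear_combination (v.re * h1 + v.im * h2) / 2
    exact (mul_eq_zero.1 this).resolve_right hv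
  have hQ0 : Q = 0 := by
    have : Q * (v.re ^ 2 + v.im ^ 2) = 0 := by linear_combination v.re * h2 - v.im * h1
    exact (mul_eq_zero.1 this).resolve_right hv
  have hl0 : l = 0 := by
    have : l * (v.re ^ 2 + v.im ^ 2) = 0 := by
      linear_combination (p.re * h1 + p.im * h2 - kp) / 2
    exact (mul_eq_zero.1 this).resolve_right hv
  have hv2 := pow_ne_zero 2 hv
  unfold cQ cL at *
  rw [hB] at hB0
  rw [hQ'] at hQ0
  rw [hl] at hl0
  funext i
  fin_cases i
  · apply mul_left_cancel₀ hv2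
    simp only [Fin.zero_eta, Pi.zero_apply]
    linear_combination v.re ^ 2 * hQ - 2 * v.re * v.im * hB0 + v.im ^ 2 * hQ0
  · apply mul_left_cancel₀ hv2
    simp only [Fin.mk_one, Pi.zero_apply]
    linear_combination v.re * v.im * hQ + (v.re ^ 2 - v.im ^ 2) * hB0 - v.re * v.im * hQ0
  · apply mul_left_cancel₀ hv2
    simp only [Fin.reduceFinMk, Pi.zero_apply]
    linear_combination v.im ^ 2 * hQ + 2 * v.re * v.im * hB0 + v.re ^ 2 * hQ0
  · apply mul_left_cancel₀ hv
    simp only [Fin.reduceFinMk, Pi.zero_apply]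
    linear_combination v.re * hL - v.im * hl0
  · apply mul_left_cancel₀ hv
    simp only [Fin.reduceFinMk, Pi.zero_apply]
    linear_combination v.im * hL + v.re * hl0

/-- five points, no three collinear -/
def GP5 (a : Fin 5 → ℂ) : Prop :=
  ∀ i j k, i ≠ j → i ≠ k → j ≠ k → dt (a j - a i) (a k - a i) ≠ 0

/-- the five points lie on the conic (origin at the first point) -/
def OnC (a : Fin 5 → ℂ) (c : Fin 5 → ℝ) : Prop := ∀ i, cQ c (a i - a 0) = 2 * cL c (a i - a 0)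

theorem cL_ne {a : Fin 5 → ℂ} {c : Fin 5 → ℝ} (ha : GP5 a) (hc : OnC a c) (h0 : c ≠ 0)
    (i j k l : Fin 5) (hi : 0 ≠ i) (hj : 0 ≠ j) (hk : 0 ≠ k) (hl : 0 ≠ l) (hij : i ≠ j)
    (hik : i ≠ k) (hil : i ≠ l) (hjk : j ≠ k) (hjl : j ≠ l) (hkl : k ≠ l) :
    cL c (a i - a 0) ≠ 0 := by
  intro h
  refine h0 (conicZ c (a i - a 0) (a j - a 0) (a k - a 0) (a l - a 0) ?_ h (hc j) (hc k) (hc l)
    (ha 0 i j hi hj hij) (ha 0 i k hi hk hik) (ha 0 i l hi hl hil) ?_)
  · rw [hc i, h]; ring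
  · have := ha j k l hjk hjl hkl
    simpa using this

theorem conic_unique {a : Fin 5 → ℂ} {c c' : Fin 5 → ℝ} (ha : GP5 a) (hc : OnC a c)
    (hc' : OnC a c') (h0 : c ≠ 0) : ∃ t : ℝ, c' = t • c := by
  have h1 := cL_ne ha hc h0 1 2 3 4 (by decide) (by decide) (by decide) (by decide) (by decide)
    (by decide) (by decide) (by decide) (by decide) (by decide)
  set t := cL c' (a 1 - a 0) / cL c (a 1 - a 0) with ht
  refine ⟨t, ?_⟩
  by_contra hne
  have hc'' : OnC a (c' - t • c) := by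
    intro i
    have e1 := hc i
    have e2 := hc' i
    simp only [cQ, cL, Pi.sub_apply, Pi.smul_apply, smul_eq_mul] at *
    linear_combination e2 - t * e1
  refine cL_ne ha hc'' (sub_ne_zero.2 hne) 1 2 3 4 (by decide) (by decide) (by decide) (by decide)
    (by decide) (by decide) (by decide) (by decide) (by decide) (by decide) ?_
  have : cL (c' - t • c) (a 1 - a 0) = cL c' (a 1 - a 0) - t * cL c (a 1 - a 0) := by
    simp only [cL, Pi.sub_apply, Pi.smul_apply, smul_eq_mul]; ring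
  rw [this, ht]
  field_simp
  ring

theorem conic_nondeg {a : Fin 5 → ℂ} {c : Fin 5 → ℝ} (ha : GP5 a) (hc : OnC a c) (h0 : c ≠ 0) :
    c 2 * c 3 ^ 2 - 2 * c 1 * c 3 * c 4 + c 0 * c 4 ^ 2 ≠ 0 := by
  intro h
  have h1 := cL_ne ha hc h0 1 2 3 4 (by decide) (by decide) (by decide) (by decide) (by decide)
    (by decide) (by decide) (by decide) (by decide) (by decide)
  have h2 := cL_ne ha hc h0 2 1 3 4 (by decide) (by decide) (by decide) (by decide) (by decide)
    (by decide) (by decide) (by decide) (by decide) (by decide)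
  have h3 := cL_ne ha hc h0 3 1 2 4 (by decide) (by decide) (by decide) (by decide) (by decide)
    (by decide) (by decide) (by decide) (by decide) (by decide)
  have hd : ∀ x : ℂ, dt ⟨-c 4, c 3⟩ x = -cL c x := by
    intro x; simp only [dt, cL]; ring
  refine h0 (conicZ c ⟨-c 4, c 3⟩ (a 1 - a 0) (a 2 - a 0) (a 3 - a 0) ?_ ?_ (hc 1) (hc 2) (hc 3)
    ?_ ?_ ?_ ?_)
  · simp only [cQ]; linear_combination h
  · simp only [cL]; ring
  · rw [hd]; exact neg_ne_zero.2 h1
  · rw [hd]; exact neg_ne_zero.2 h2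
  · rw [hd]; exact neg_ne_zero.2 h3
  · have := ha 1 2 3 (by decide) (by decide) (by decide)
    simpa using this

/-- the cubic constraint -/
def cG (c : Fin 5 → ℝ) (w : ℂ) : ℝ :=
  (1 - c 2) * (w.re - c 3) ^ 2 + 2 * c 1 * (w.re - c 3) * (w.im - c 4)
    + (1 - c 0) * (w.im - c 4) ^ 2 - ((1 - c 0) * (1 - c 2) - c 1 ^ 2) * (w.re ^ 2 + w.im ^ 2)

theorem sq_eq_of_norm {u v : ℂ} (h : ‖u‖ = ‖v‖) : u.re ^ 2 + u.im ^ 2 = v.re ^ 2 + v.im ^ 2 := by
  have h1 := Complex.sq_norm u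
  have h2 := Complex.sq_norm v
  rw [Complex.normSq_apply] at h1 h2
  rw [h] at h1
  linear_combination h2 - h1

theorem transfer (a a' : Fin 5 → ℂ) (b b' : Fin 3 → ℂ)
    (h : ∀ i j, ‖a' i - b' j‖ = ‖a i - b j‖) (hb : dt (b' 1 - b' 0) (b' 2 - b' 0) ≠ 0) :
    ∃ c : Fin 5 → ℝ, OnC a c ∧ ‖a' 1 - a' 0‖ ^ 2 = ‖a 1 - a 0‖ ^ 2 - cQ c (a 1 - a 0) ∧
      cG c (b 0 - a 0) = 0 := by
  have e : ∀ i j, _ := fun i j => sq_eq_of_norm (h i j)
  simp only [Complex.sub_re, Complex.sub_im] at e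
  set y1 := b 1 - b 0 with hy1
  set y2 := b 2 - b 0 with hy2
  set z1 := b' 1 - b' 0 with hz1
  set z2 := b' 2 - b' 0 with hz2
  set D := dt z1 z2 with hD
  obtain ⟨t11, ht11⟩ : ∃ t : ℝ, D * t = z2.im * y1.re - z1.im * y2.re :=
    ⟨_, mul_div_cancel₀ _ hb⟩
  obtain ⟨t12, ht12⟩ : ∃ t : ℝ, D * t = z2.im * y1.im - z1.im * y2.im :=
    ⟨_, mul_div_cancel₀ _ hb⟩
  obtain ⟨t21, ht21⟩ : ∃ t : ℝ, D * t = z1.re * y2.re - z2.re * y1.re :=
    ⟨_, mul_div_cancel₀ _ hb⟩
  obtain ⟨t22, ht22⟩ : ∃ t : ℝ, D * t = z1.re * y2.im - z2.re * y1.im :=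
    ⟨_, mul_div_cancel₀ _ hb⟩
  have ip : ∀ i (j : Fin 3), ((a' i).re - (a' 0).re) * ((b' j).re - (b' 0).re)
      + ((a' i).im - (a' 0).im) * ((b' j).im - (b' 0).im)
      = ((a i).re - (a 0).re) * ((b j).re - (b 0).re)
      + ((a i).im - (a 0).im) * ((b j).im - (b 0).im) := by
    intro i j
    linear_combination (e i 0 + e 0 j - e i j - e 0 0) / 2
  have hx : ∀ i, (a' i).re - (a' 0).re
      = t11 * ((a i).re - (a 0).re) + t12 * ((a i).im - (a 0).im) := by
    intro i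
    apply mul_left_cancel₀ hb
    have i1 := ip i 1
    have i2 := ip i 2
    simp only [hD, dt, hy1, hy2, hz1, hz2, Complex.sub_re, Complex.sub_im] at *
    linear_combination ((b' 2).im - (b' 0).im) * i1 - ((b' 1).im - (b' 0).im) * i2
      - ((a i).re - (a 0).re) * ht11 - ((a i).im - (a 0).im) * ht12
  have hy : ∀ i, (a' i).im - (a' 0).im
      = t21 * ((a i).re - (a 0).re) + t22 * ((a i).im - (a 0).im) := by
    intro i
    apply mul_left_cancel₀ hb
    have i1 := ip i 1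
    have i2 := ip i 2
    simp only [hD, dt, hy1, hy2, hz1, hz2, Complex.sub_re, Complex.sub_im] at *
    linear_combination ((b' 1).re - (b' 0).re) * i2 - ((b' 2).re - (b' 0).re) * i1
      - ((a i).re - (a 0).re) * ht21 - ((a i).im - (a 0).im) * ht22
  set w1 := (b' 0).re - (a' 0).re with hw1
  set w2 := (b' 0).im - (a' 0).im with hw2
  refine ⟨![1 - (t11 ^ 2 + t21 ^ 2), -(t11 * t12 + t21 * t22), 1 - (t12 ^ 2 + t22 ^ 2),
    ((b 0).re - (a 0).re) - (t11 * w1 + t21 * w2),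
    ((b 0).im - (a 0).im) - (t12 * w1 + t22 * w2)], ?_, ?_, ?_⟩
  · intro i
    have e1 := e i 0
    have e2 := e 0 0
    have r1 : (a' i).re = (a' 0).re + (t11 * ((a i).re - (a 0).re) + t12 * ((a i).im - (a 0).im)) := by
      linear_combination hx i
    have r2 : (a' i).im = (a' 0).im + (t21 * ((a i).re - (a 0).re) + t22 * ((a i).im - (a 0).im)) := by
      linear_combination hy i
    rw [r1, r2] at e1
    simp only [cQ, cL, Complex.sub_re, Complex.sub_im, Matrix.cons_val_zero, Matrix.cons_val_one,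
      Matrix.cons_val, hw1, hw2]
    linear_combination e2 - e1
  · rw [Complex.sq_norm, Complex.sq_norm, Complex.normSq_apply, Complex.normSq_apply]
    simp only [cQ, Complex.sub_re, Complex.sub_im, Matrix.cons_val_zero, Matrix.cons_val_one,
      Matrix.cons_val]
    rw [hx 1, hy 1]
    ring
  · have e2 := e 0 0
    simp only [cG, Complex.sub_re, Complex.sub_im, Matrix.cons_val_zero, Matrix.cons_val_one,
      Matrix.cons_val, hw1, hw2]
    linear_combination (t11 * t22 - t12 * t21) ^ 2 * e2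

/-- among four realisations with the same cross distances two have the same first side -/
theorem rigid4 (a : Fin 4 → Fin 5 → ℂ) (b : Fin 4 → Fin 3 → ℂ)
    (h : ∀ r i j, ‖a r i - b r j‖ = ‖a 0 i - b 0 j‖) (ha : GP5 (a 0))
    (hb : ∀ r, dt (b r 1 - b r 0) (b r 2 - b r 0) ≠ 0) :
    ∃ r r', r ≠ r' ∧ ‖a r 1 - a r 0‖ = ‖a r' 1 - a r' 0‖ := by
  have T := fun r => transfer (a 0) (a r) (b 0) (b r) (h r) (hb r)
  choose c hc hn hG using T
  have fin : ∀ r r', r ≠ r' → ‖a r 1 - a r 0‖ ^ 2 = ‖a r' 1 - a r' 0‖ ^ 2 →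
      ∃ r r', r ≠ r' ∧ ‖a r 1 - a r 0‖ = ‖a r' 1 - a r' 0‖ := fun r r' hr e =>
    ⟨r, r', hr, (pow_left_inj₀ (norm_nonneg _) (norm_nonneg _) two_ne_zero).1 e⟩
  have q0 : ∀ x, cQ 0 x = 0 := fun x => by simp [cQ]
  by_cases h0 : c 1 = 0
  · exact fin 1 0 (by decide) (by rw [hn 1, h0, q0, sub_zero])
  obtain ⟨s, hs⟩ := conic_unique ha (hc 1) (hc 2) h0
  obtain ⟨t, ht⟩ := conic_unique ha (hc 1) (hc 3) h0
  by_cases s0 : s = 0
  · exact fin 2 0 (by decide) (by rw [hn 2, hs, s0, zero_smul, q0, sub_zero])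
  by_cases t0 : t = 0
  · exact fin 3 0 (by decide) (by rw [hn 3, ht, t0, zero_smul, q0, sub_zero])
  by_cases s1 : s = 1
  · exact fin 2 1 (by decide) (by rw [hn 2, hn 1, hs, s1, one_smul])
  by_cases t1 : t = 1
  · exact fin 3 1 (by decide) (by rw [hn 3, hn 1, ht, t1, one_smul])
  by_cases st : s = t
  · exact fin 2 3 (by decide) (by rw [hn 2, hn 3, hs, ht, st])
  exfalso
  apply conic_nondeg ha (hc 1) h0
  have g1 := hG 1
  have g2 := hG 2
  have g3 := hG 3
  rw [hs] at g2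
  rw [ht] at g3
  simp only [cG, Pi.smul_apply, smul_eq_mul] at g1 g2 g3
  have hne : s * t * (s - 1) * (t - 1) * (s - t) ≠ 0 :=
    mul_ne_zero (mul_ne_zero (mul_ne_zero (mul_ne_zero s0 t0) (sub_ne_zero.2 s1))
      (sub_ne_zero.2 t1)) (sub_ne_zero.2 st)
  apply mul_left_cancel₀ hne
  linear_combination (-(s * t * (s - t))) * g1 - t * (t - 1) * g2 + s * (s - 1) * g3

end Pool.Agent.MP_e70dc0_co.H56
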