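import Pool.Agent.MP_e70dc0_co.H56.Rigid

/-! Few direct isometries can map a positive proportion of a planar set into itself, unless the
set has large additive energy or many points on a circle. -/

set_option autoImplicit false

namespace Pool.Agent.MP_e70dc0_co.H56

open Finset

/-- the affine map `z ↦ u z + t` -/
def act (g : ℂ × ℂ) (z : ℂ) : ℂ := g.1 * z + g.2

/-- number of points mapped into the set -/
noncomputable def kk (P : Finset ℂ) (g : ℂ × ℂ) : ℕ := #{z ∈ P | act g z ∈ P}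

/-- number of representations as a difference -/
noncomputable def rr (P : Finset ℂ) (v : ℂ) : ℕ := #{x ∈ P ×ˢ P | x.1 - x.2 = v}

/-- additive energy -/
noncomputable def en (P : Finset ℂ) : ℕ := ∑ x ∈ P ×ˢ P, rr P (x.1 - x.2)

theorem dc {α β : Type*} (S : Finset α) (T : Finset β) (G : α → β → Prop)
    [∀ a b, Decidable (G a b)] :
    ∑ a ∈ S, (#{b ∈ T | G a b} : ℝ) = ∑ b ∈ T, (#{a ∈ S | G a b} : ℝ) := by
  simp only [card_filter]
  push_cast
  exact sum_comm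

theorem card_prod {α β : Type*} (S : Finset α) (T : Finset β) (G : α × β → Prop)
    [DecidablePred G] :
    (#{p ∈ S ×ˢ T | G p} : ℝ) = ∑ a ∈ S, (#{b ∈ T | G (a, b)} : ℝ) := by
  simp only [card_filter]
  push_cast
  exact sum_product _ _ _

theorem card_prod' {α β : Type*} (S : Finset α) (T : Finset β) (G : α × β → Prop)
    [DecidablePred G] :
    (#{p ∈ S ×ˢ T | G p} : ℝ) = ∑ b ∈ T, (#{a ∈ S | G (a, b)} : ℝ) := by
  rw [card_prod, dc S T fun a b => G (a, b)]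

theorem sum_le_mul {ι : Type*} (S : Finset ι) (f : ι → ℝ) (t : ℝ) (h : ∀ x ∈ S, f x ≤ t) :
    ∑ x ∈ S, f x ≤ #S * t := by
  simpa using sum_le_card_nsmul S f t h

theorem mul_le_sum {ι : Type*} (S : Finset ι) (f : ι → ℝ) (t : ℝ) (h : ∀ x ∈ S, t ≤ f x) :
    #S * t ≤ ∑ x ∈ S, f x := by
  simpa using card_nsmul_le_sum S f t h

theorem sum_split {ι : Type*} (S : Finset ι) (f : ι → ℝ) (p : ι → Prop) [DecidablePred p]
    {t u : ℝ} (ht : 0 ≤ t) (h1 : ∀ x ∈ S, ¬ p x → f x ≤ t) (h2 : ∀ x ∈ S, p x → f x ≤ u) :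
    ∑ x ∈ S, f x ≤ #S * t + #{x ∈ S | p x} * u := by
  rw [← sum_filter_add_sum_filter_not S p, add_comm]
  refine add_le_add ((sum_le_mul _ f t fun x hx =>
    h1 x (mem_filter.1 hx).1 (mem_filter.1 hx).2).trans ?_)
    (sum_le_mul _ f u fun x hx => h2 x (mem_filter.1 hx).1 (mem_filter.1 hx).2)
  exact mul_le_mul_of_nonneg_right (by exact_mod_cast card_filter_le _ _) ht

/-- Cauchy-Schwarz for coincidences -/
theorem cs {α β : Type*} [DecidableEq β] (A : Finset α) (B : Finset β) (f : α → β)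
    (hf : ∀ a ∈ A, f a ∈ B) :
    (#A : ℝ) ^ 2 ≤ #B * #{x ∈ A ×ˢ A | f x.1 = f x.2} := by
  have h1 : (#A : ℝ) = ∑ b ∈ B, (#{a ∈ A | f a = b} : ℝ) := by
    exact_mod_cast card_eq_sum_card_fiberwise (fun a ha => hf a ha)
  have h2 : (#{x ∈ A ×ˢ A | f x.1 = f x.2} : ℝ) = ∑ b ∈ B, (#{a ∈ A | f a = b} : ℝ) ^ 2 := by
    rw [card_eq_sum_card_fiberwise (f := fun x : α × α => f x.1) (t := B)
      (fun x hx => hf _ (mem_product.1 (mem_filter.1 hx).1).1)]
    push_cast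
    refine sum_congr rfl fun b _ => ?_
    rw [sq, ← Nat.cast_mul, ← card_product]
    congr 2
    ext x
    simp only [mem_filter, mem_product]
    constructor
    · rintro ⟨⟨⟨h1, h2⟩, h3⟩, h4⟩
      exact ⟨⟨h1, h4⟩, h2, h3 ▸ h4⟩
    · rintro ⟨⟨h1, h2⟩, h3, h4⟩
      exact ⟨⟨⟨h1, h3⟩, h2.trans h4.symm⟩, h2⟩
  rw [h1, h2]
  exact sq_sum_le_card_mul_sum_sq

theorem kk_le (P : Finset ℂ) (g : ℂ × ℂ) : (kk P g : ℝ) ≤ #P := by
  exact_mod_cast card_filter_le _ _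

theorem sum_rr (P : Finset ℂ) (F : ℂ → ℝ) :
    ∑ x ∈ P ×ˢ P, F (x.1 - x.2)
      = ∑ v ∈ (P ×ˢ P).image (fun x => x.1 - x.2), rr P v * F v := by
  rw [← sum_fiberwise_of_maps_to (g := fun x : ℂ × ℂ => x.1 - x.2)
    (t := (P ×ˢ P).image fun x => x.1 - x.2) (fun x hx => mem_image_of_mem _ hx)]
  refine sum_congr rfl fun v _ => ?_
  rw [sum_congr rfl (g := fun _ => F v) fun x hx => by rw [(mem_filter.1 hx).2]]
  simp [rr]

theorem rot_le_en (P : Finset ℂ) {θ : ℂ} (hθ : θ ≠ 0) :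
    ∑ x ∈ P ×ˢ P, (rr P (θ * (x.1 - x.2)) : ℝ) ≤ en P := by
  set V := (P ×ˢ P).image (fun x : ℂ × ℂ => x.1 - x.2) with hV
  have h1 := sum_rr P fun v => (rr P (θ * v) : ℝ)
  have h2 : (en P : ℝ) = ∑ v ∈ V, (rr P v : ℝ) ^ 2 := by
    have := sum_rr P fun v => (rr P v : ℝ)
    simp only [en, sq]
    push_cast
    exact this
  have h3 : ∑ v ∈ V, (rr P (θ * v) : ℝ) ^ 2 ≤ ∑ v ∈ V, (rr P v : ℝ) ^ 2 := by
    rw [← sum_image (s := V) (g := fun v => θ * v) (f := fun w => (rr P w : ℝ) ^ 2)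
      (fun a _ b _ h => mul_left_cancel₀ hθ h)]
    have : ∑ w ∈ V.image (fun v => θ * v), rr P w ^ 2 ≤ ∑ v ∈ V, rr P v ^ 2 := by
      refine sum_le_sum_of_ne_zero fun w _ hw => ?_
      obtain ⟨x, hx⟩ := card_ne_zero.1 (pow_ne_zero_iff two_ne_zero |>.1 hw)
      exact mem_image.2 ⟨x, (mem_filter.1 hx).1, (mem_filter.1 hx).2⟩
    exact_mod_cast this
  rw [h1, h2]
  have h4 : ∑ v ∈ V, (rr P v : ℝ) * rr P (θ * v)
      ≤ ∑ v ∈ V, ((rr P v : ℝ) ^ 2 / 2 + (rr P (θ * v) : ℝ) ^ 2 / 2) :=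
    sum_le_sum fun v _ => by nlinarith [sq_nonneg ((rr P v : ℝ) - rr P (θ * v))]
  rw [sum_add_distrib, ← sum_div, ← sum_div] at h4
  linarith

theorem rot_energy (P : Finset ℂ) {θ : ℂ} (hθ : θ ≠ 0) (T : Finset ℂ) {y : ℝ} (hy : 0 ≤ y)
    (hT : ∀ t ∈ T, y ≤ kk P (θ, t)) : #T * y ^ 2 ≤ en P := by
  refine le_trans ?_ (rot_le_en P hθ)
  calc #T * y ^ 2 ≤ ∑ t ∈ T, (#{x ∈ P ×ˢ P | act (θ, t) x.1 ∈ P ∧ act (θ, t) x.2 ∈ P} : ℝ) := by
        refine mul_le_sum _ _ _ fun t ht => ?_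
        rw [filter_product (fun z => act (θ, t) z ∈ P) (fun z => act (θ, t) z ∈ P), card_product]
        push_cast
        have := hT t ht
        unfold kk at this
        nlinarith
    _ = ∑ x ∈ P ×ˢ P, (#{t ∈ T | act (θ, t) x.1 ∈ P ∧ act (θ, t) x.2 ∈ P} : ℝ) :=
        dc T (P ×ˢ P) fun t x => act (θ, t) x.1 ∈ P ∧ act (θ, t) x.2 ∈ P
    _ ≤ _ := by
        refine sum_le_sum fun x _ => ?_
        unfold rr
        exact_mod_cast card_le_card_of_injOn (fun t => (act (θ, t) x.1, act (θ, t) x.2))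
          (fun t ht => by
            have := (mem_filter.1 (mem_coe.1 ht)).2
            simp only [coe_filter, mem_product, Set.mem_ofPred_eq]
            exact ⟨this, by simp only [act]; ring⟩)
          (fun t _ t' _ h => by
            have := congrArg Prod.fst h
            simpa [act] using this)

/-- at most `K` points on a circle -/
def Circ (P : Finset ℂ) (K : ℕ) : Prop := ∀ (c : ℂ) (r : ℝ), #{z ∈ P | ‖z - c‖ = r} ≤ K

theorem stab_le {P : Finset ℂ} {K : ℕ} (hK : Circ P K) (H : Finset (ℂ × ℂ)) {y : ℝ}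
    (hy : 2 ≤ y) (hH : ∀ g ∈ H, ‖g.1‖ = 1 ∧ y ≤ kk P g) (z0 z1 : ℂ)
    (hz : ∀ g ∈ H, act g z0 = z1) : #H * y ≤ 2 * K * #P := by
  have h1 : #H * y ≤ ∑ z ∈ P, (#{g ∈ H | act g z ∈ P} : ℝ) := by
    rw [← dc H P fun g z => act g z ∈ P]
    exact mul_le_sum _ _ _ fun g hg => (hH g hg).2
  have h2 := sum_split P (fun z => (#{g ∈ H | act g z ∈ P} : ℝ)) (fun z => z = z0)
    (t := K) (u := #H) (Nat.cast_nonneg _) (fun z _ hz0 => by
      have : #{g ∈ H | act g z ∈ P} ≤ #{w ∈ P | ‖w - z1‖ = ‖z - z0‖} := by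
        refine card_le_card_of_injOn (fun g => act g z) (fun g hg => ?_) (fun g hg g' hg' h => ?_)
        · obtain ⟨g1, g2⟩ := mem_filter.1 (mem_coe.1 hg)
          simp only [coe_filter, Set.mem_ofPred_eq]
          refine ⟨g2, ?_⟩
          have : act g z - z1 = g.1 * (z - z0) := by rw [← hz g g1]; simp only [act]; ring
          rw [this, norm_mul, (hH g g1).1, one_mul]
        · have e1 := hz g (mem_filter.1 (mem_coe.1 hg)).1
          have e2 := hz g' (mem_filter.1 (mem_coe.1 hg')).1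
          simp only [act] at h e1 e2
          have e3 : g.1 = g'.1 := by
            apply mul_right_cancel₀ (sub_ne_zero.2 hz0)
            linear_combination h - e1 + e2
          refine Prod.ext e3 ?_
          rw [e3] at e1
          linear_combination e1 - e2
      exact_mod_cast this.trans (hK _ _))
    (fun z _ _ => by exact_mod_cast card_filter_le _ _)
  have h3 : (#{z ∈ P | z = z0} : ℝ) ≤ 1 := by
    have : #{z ∈ P | z = z0} ≤ 1 :=
      card_le_one.2 fun a ha b hb => (mem_filter.1 ha).2.trans (mem_filter.1 hb).2.symm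
    exact_mod_cast this
  have h4 : (0 : ℝ) ≤ #H := Nat.cast_nonneg _
  nlinarith

/-- configurations `y, g y, h y, h g y` -/
noncomputable def WW (P : Finset ℂ) (S : Finset (ℂ × ℂ)) (g : ℂ × ℂ) : ℝ :=
  ∑ h ∈ S, (#{y ∈ P | act g y ∈ P ∧ act h y ∈ P ∧ act h (act g y) ∈ P} : ℝ)

theorem WW_tr (P : Finset ℂ) (S : Finset (ℂ × ℂ)) (g : ℂ × ℂ) : WW P S g ≤ #S * kk P g := by
  refine sum_le_mul _ _ _ fun h _ => ?_
  have : #{y ∈ P | act g y ∈ P ∧ act h y ∈ P ∧ act h (act g y) ∈ P} ≤ kk P g :=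
    card_le_card fun y hy => mem_filter.2 ⟨(mem_filter.1 hy).1, (mem_filter.1 hy).2.1⟩
  exact_mod_cast this

theorem WW_rot {P : Finset ℂ} {K : ℕ} (hK : Circ P K) (S : Finset (ℂ × ℂ)) {y x M κ : ℝ}
    (hy : 2 ≤ y) (hS : ∀ g ∈ S, ‖g.1‖ = 1 ∧ y ≤ kk P g) (hx : 0 < x) (hM : en P ≤ M * x ^ 2)
    (hκ : 2 * K * #P ≤ κ * y) (g : ℂ × ℂ) (h0 : g.1 ≠ 0) (h1 : g.1 ≠ 1) :
    WW P S g ≤ #S * x + κ * M * #P := by
  set τ : ℂ × ℂ → ℂ := fun h => h.1 * g.2 + (1 - g.1) * h.2 with hτ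
  have hb : ∀ h ∈ S, (#{y ∈ P | act g y ∈ P ∧ act h y ∈ P ∧ act h (act g y) ∈ P} : ℝ)
      ≤ kk P (g.1, τ h) := by
    intro h hh
    have hne : h.1 ≠ 0 := norm_ne_zero_iff.1 (by rw [(hS h hh).1]; exact one_ne_zero)
    unfold kk
    exact_mod_cast card_le_card_of_injOn (fun z => act h z)
      (fun z hz => by
        obtain ⟨_, _, z2, z3⟩ := mem_filter.1 (mem_coe.1 hz)
        simp only [coe_filter, Set.mem_ofPred_eq]
        refine ⟨z2, ?_⟩
        convert z3 using 1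
        simp only [act, hτ]; ring)
      (fun z _ z' _ e => by
        simp only [act] at e
        exact mul_left_cancel₀ hne (add_right_cancel e))
  have h2 := sum_split S (fun h => (#{y ∈ P | act g y ∈ P ∧ act h y ∈ P ∧ act h (act g y) ∈ P} : ℝ))
    (fun h => x ≤ kk P (g.1, τ h)) (t := x) (u := #P) hx.le
    (fun h hh hp => (hb h hh).trans (not_le.1 hp).le)
    (fun h hh _ => (hb h hh).trans (kk_le _ _))
  refine h2.trans (add_le_add le_rfl (mul_le_mul_of_nonneg_right ?_ (Nat.cast_nonneg _)))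
  set S' := {h ∈ S | x ≤ kk P (g.1, τ h)} with hS'
  have h3 : (#(S'.image τ) : ℝ) ≤ M := by
    have := rot_energy P h0 (S'.image τ) hx.le fun t ht => by
      obtain ⟨h, hh, rfl⟩ := mem_image.1 ht
      exact (mem_filter.1 hh).2
    exact le_of_mul_le_mul_right (this.trans hM) (by positivity)
  have hκ0 : 0 ≤ κ := by
    by_contra hc
    have : κ * y < 0 := mul_neg_of_neg_of_pos (not_le.1 hc) (by linarith)
    have : (0 : ℝ) ≤ 2 * K * #P := by positivity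
    linarith
  have h4 : (#S' : ℝ) = ∑ t ∈ S'.image τ, (#{h ∈ S' | τ h = t} : ℝ) := by
    exact_mod_cast card_eq_sum_card_fiberwise (fun a ha => mem_image_of_mem τ ha)
  rw [h4, mul_comm κ]
  refine (sum_le_mul _ _ κ fun t _ => ?_).trans (mul_le_mul_of_nonneg_right h3 hκ0)
  have h5 := stab_le hK {h ∈ S' | τ h = t} hy
    (fun h hh => hS h (mem_filter.1 (mem_filter.1 hh).1).1) (g.2 / (1 - g.1)) (t / (1 - g.1))
    (fun h hh => by
      have := (mem_filter.1 hh).2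
      have hne : 1 - g.1 ≠ 0 := sub_ne_zero.2 h1.symm
      simp only [act, ← this, hτ]
      field_simp)
  exact le_of_mul_le_mul_right (h5.trans hκ) (by linarith)

/-- the quotient `f'⁻¹ f` -/
noncomputable def quo (f f' : ℂ × ℂ) : ℂ × ℂ := (f.1 / f'.1, (f.2 - f'.2) / f'.1)

theorem count_tr (P : Finset ℂ) (S : Finset (ℂ × ℂ)) (hS : ∀ g ∈ S, g.1 ≠ 0) {x M : ℝ}
    (hx : 0 < x) (hM : en P ≤ M * x ^ 2) :
    (#{f ∈ S ×ˢ S | f.1.1 = f.2.1 ∧ x ≤ kk P (quo f.1 f.2)} : ℝ) ≤ #S * M := by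
  rw [card_prod']
  refine sum_le_mul _ _ _ fun f' hf' => ?_
  set A := {f ∈ S | f.1 = f'.1 ∧ x ≤ kk P (quo f f')} with hA
  have hinj : Set.InjOn (fun f : ℂ × ℂ => (quo f f').2) A := by
    intro f hf g hg e
    have e1 := (mem_filter.1 (mem_coe.1 hf)).2.1
    have e2 := (mem_filter.1 (mem_coe.1 hg)).2.1
    simp only [quo] at e
    exact Prod.ext (e1.trans e2.symm) (sub_left_inj.1 ((div_left_inj' (hS f' hf')).1 e))
  have := rot_energy P one_ne_zero (A.image fun f => (quo f f').2) hx.le fun t ht => by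
    obtain ⟨f, hf, rfl⟩ := mem_image.1 ht
    obtain ⟨_, e1, e2⟩ := mem_filter.1 hf
    have : quo f f' = (1, (quo f f').2) := by
      simp only [quo, e1, div_self (hS f' hf')]
    rwa [this] at e2
  rw [card_image_of_injOn hinj] at this
  exact le_of_mul_le_mul_right (this.trans hM) (by positivity)

theorem lower_W (P : Finset ℂ) (S : Finset (ℂ × ℂ)) (hS0 : ∀ g ∈ S, g.1 ≠ 0) {η : ℝ}
    (hη : 0 ≤ η) (hn : 0 < (#P : ℝ)) (hs : 0 < (#S : ℝ)) (hS : ∀ g ∈ S, η * #P ≤ kk P g) :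
    (#S : ℝ) ^ 3 * η ^ 4 * #P ≤ ∑ f ∈ S ×ˢ S, WW P S (quo f.1 f.2) := by
  set Ω := {ω ∈ (S ×ˢ S) ×ˢ P | act ω.1.1 ω.2 ∈ P ∧ act ω.1.2 ω.2 ∈ P} with hΩ
  have h1 : (#Ω : ℝ) = ∑ y ∈ P, (#{g ∈ S | act g y ∈ P} : ℝ) ^ 2 := by
    rw [hΩ, card_prod']
    refine sum_congr rfl fun y _ => ?_
    rw [filter_product (fun g => act g y ∈ P) (fun g => act g y ∈ P), card_product]
    push_cast
    ring
  have h2 : #S * (η * #P) ≤ ∑ y ∈ P, (#{g ∈ S | act g y ∈ P} : ℝ) := by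
    rw [← dc S P fun g z => act g z ∈ P]
    exact mul_le_sum _ _ _ hS
  have h3 : (#S : ℝ) ^ 2 * η ^ 2 * #P ≤ #Ω := by
    have := sq_sum_le_card_mul_sum_sq (s := P) (f := fun y => (#{g ∈ S | act g y ∈ P} : ℝ))
    rw [← h1] at this
    have h4 := pow_le_pow_left₀ (by positivity) h2 2
    refine le_of_mul_le_mul_left ?_ hn
    nlinarith
  have h4 := cs Ω (S ×ˢ P) (fun ω => (ω.1.1, act ω.1.2 ω.2)) fun ω hω => by
    obtain ⟨a, b, c⟩ := mem_filter.1 hω
    exact mem_product.2 ⟨(mem_product.1 (mem_product.1 a).1).1, c⟩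
  have h5 : (#{x ∈ Ω ×ˢ Ω | (x.1.1.1, act x.1.1.2 x.1.2) = (x.2.1.1, act x.2.1.2 x.2.2)} : ℝ)
      ≤ ∑ f ∈ S ×ˢ S, WW P S (quo f.1 f.2) := by
    have e : ∑ f ∈ S ×ˢ S, WW P S (quo f.1 f.2) =
        (#{z ∈ (S ×ˢ S) ×ˢ (S ×ˢ P) | act (quo z.1.1 z.1.2) z.2.2 ∈ P ∧ act z.2.1 z.2.2 ∈ P ∧
          act z.2.1 (act (quo z.1.1 z.1.2) z.2.2) ∈ P} : ℝ) := by
      rw [card_prod]
      refine sum_congr rfl fun f _ => ?_
      rw [card_prod]
      rfl
    rw [e]
    have key : ∀ x ∈ Ω ×ˢ Ω, (x.1.1.1, act x.1.1.2 x.1.2) = (x.2.1.1, act x.2.1.2 x.2.2) →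
        x.2.1.1 = x.1.1.1 ∧ x.2.2 = act (quo x.1.1.2 x.2.1.2) x.1.2 := by
      intro x hx h
      obtain ⟨e1, e2⟩ := Prod.mk.inj h
      refine ⟨e1.symm, ?_⟩
      have := hS0 _ (mem_product.1 (mem_product.1 (mem_filter.1 (mem_product.1 hx).2).1).1).2
      simp only [act, quo] at e2 ⊢
      field_simp
      linear_combination -e2
    refine Nat.cast_le.2 <| card_le_card_of_injOn
      (fun x => ((x.1.1.2, x.2.1.2), (x.1.1.1, x.1.2)))
      (fun x hx => by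
        obtain ⟨hx1, hx2⟩ := mem_filter.1 (mem_coe.1 hx)
        obtain ⟨k1, k2⟩ := key x hx1 hx2
        obtain ⟨a, b⟩ := mem_product.1 hx1
        obtain ⟨a1, a2, _⟩ := mem_filter.1 a
        obtain ⟨b1, b2, _⟩ := mem_filter.1 b
        simp only [mem_product] at a1 b1
        simp only [coe_filter, mem_product, Set.mem_ofPred_eq]
        rw [← k2]
        exact ⟨⟨⟨a1.1.2, b1.1.2⟩, a1.1.1, a1.2⟩, b1.2, a2, k1 ▸ b2⟩)
      (fun x hx x' hx' e => by
        obtain ⟨k1, k2⟩ := key x (mem_filter.1 (mem_coe.1 hx)).1 (mem_filter.1 (mem_coe.1 hx)).2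
        obtain ⟨l1, l2⟩ := key x' (mem_filter.1 (mem_coe.1 hx')).1 (mem_filter.1 (mem_coe.1 hx')).2
        simp only [Prod.mk.injEq] at e
        obtain ⟨⟨e1, e2⟩, e3, e4⟩ := e
        refine Prod.ext (Prod.ext (Prod.ext e3 e1) e4) (Prod.ext (Prod.ext ?_ e2) ?_)
        · rw [k1, l1, e3]
        · rw [k2, l2, e1, e2, e4])
  rw [card_product] at h4
  push_cast at h4
  have h6 := pow_le_pow_left₀ (by positivity) h3 2
  refine le_of_mul_le_mul_left ?_ (mul_pos hs hn)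
  calc _ = ((#S : ℝ) ^ 2 * η ^ 2 * #P) ^ 2 := by ring
    _ ≤ _ := h6.trans (h4.trans (mul_le_mul_of_nonneg_left h5 (by positivity)))

/-- the symmetry lemma -/
theorem sym_bound {P : Finset ℂ} {K : ℕ} (hK : Circ P K) (hK1 : 1 ≤ K) (S : Finset (ℂ × ℂ))
    {η : ℝ} (hη : 0 < η) (h2 : 2 ≤ η * #P) (hS : ∀ g ∈ S, ‖g.1‖ = 1 ∧ η * #P ≤ kk P g) :
    #S * η ^ 13 * (#P : ℝ) ^ 2 ≤ 24 * K * en P := by
  rcases S.eq_empty_or_nonempty with rfl | hne
  · simp only [card_empty, Nat.cast_zero, zero_mul]; positivity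
  have hs : 0 < (#S : ℝ) := by exact_mod_cast hne.card_pos
  have hn : 0 < (#P : ℝ) := by
    by_contra h
    have : (#P : ℝ) = 0 := le_antisymm (not_lt.1 h) (Nat.cast_nonneg _)
    rw [this] at h2; norm_num at h2
  have hη1 : η ≤ 1 := by
    obtain ⟨g, hg⟩ := hne
    have := (hS g hg).2.trans (kk_le P g)
    exact le_of_mul_le_mul_right (by linarith) hn
  have hS0 : ∀ g ∈ S, g.1 ≠ 0 := fun g hg =>
    norm_ne_zero_iff.1 (by rw [(hS g hg).1]; exact one_ne_zero)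
  have hl := lower_W P S hS0 hη.le hn hs fun g hg => (hS g hg).2
  set n : ℝ := (#P : ℝ) with hn'
  set s : ℝ := (#S : ℝ) with hs'
  set x := η ^ 4 / 2 * n with hx
  have hx0 : 0 < x := by positivity
  set M := en P / x ^ 2 with hM
  have hM' : en P ≤ M * x ^ 2 := by rw [hM, div_mul_cancel₀ _ (by positivity)]
  have hM0 : 0 ≤ M := by positivity
  set κ := 2 * K / η with hκ
  have hκ' : 2 * K * n ≤ κ * (η * n) := by rw [hκ]; field_simp; exact le_rfl
  have hκ0 : 0 ≤ κ := by positivity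
  have hu := sum_split (S ×ˢ S) (fun f => WW P S (quo f.1 f.2))
    (fun f => f.1.1 = f.2.1 ∧ x ≤ kk P (quo f.1 f.2)) (t := s * x + κ * M * n) (u := s * n)
    (by positivity)
    (fun f hf hp => by
      obtain ⟨f1, f2⟩ := mem_product.1 hf
      by_cases e : f.1.1 = f.2.1
      · have : (kk P (quo f.1 f.2) : ℝ) ≤ x := (not_le.1 fun h => hp ⟨e, h⟩).le
        have h3 := (WW_tr P S (quo f.1 f.2)).trans (mul_le_mul_of_nonneg_left this hs.le)
        have : 0 ≤ κ * M * n := by positivity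
        linarith
      · exact WW_rot hK S h2 hS hx0 hM' hκ' _ (div_ne_zero (hS0 _ f1) (hS0 _ f2))
          fun h => e ((div_eq_one_iff_eq (hS0 _ f2)).1 h))
    (fun f _ _ => (WW_tr P S _).trans (mul_le_mul_of_nonneg_left (kk_le _ _) hs.le))
  have hc := mul_le_mul_of_nonneg_right (count_tr P S hS0 hx0 hM') (mul_pos hs hn).le
  rw [card_product] at hu
  push_cast at hu
  have h7 : s * η ^ 4 / 2 ≤ (κ + 1) * M := by
    refine le_of_mul_le_mul_left ?_ (by positivity : 0 < s ^ 2 * n)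
    have : s * s * (s * x + κ * M * n) = s ^ 3 * η ^ 4 * n / 2 + s ^ 2 * n * (κ * M) := by
      rw [hx]; ring
    nlinarith
  have h8 : κ + 1 ≤ 3 * K / η := by
    rw [hκ, div_add_one hη.ne', div_le_div_iff_of_pos_right hη]
    have : (1 : ℝ) ≤ K := by exact_mod_cast hK1
    linarith
  have h9 := h7.trans (mul_le_mul_of_nonneg_right h8 hM0)
  rw [hM, hx] at h9
  have h10 : 3 * K / η * (en P / (η ^ 4 / 2 * n) ^ 2) = 12 * K * en P / (η ^ 9 * n ^ 2) := by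
    field_simp; ring
  rw [h10, le_div_iff₀ (by positivity)] at h9
  nlinarith

end Pool.Agent.MP_e70dc0_co.H56
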